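import Pool.Agent.V5helper88.HR.G16

/-!
Invariant tensors in at most four variables in one irreducible symplectic space of dimension four
whose traceless self-adjoint part is irreducible.
-/

set_option autoImplicit false

namespace Pool.Agent.V5helper88.KK

open Matrix Module Function Pool.Agent.V5helper88.HR

variable {R : Set (Matrix (Fin 4) (Fin 4) ℂ)}

theorem J_tr {ρ : Matrix (Fin 4) (Fin 4) ℂ} (h : ρᵀ * J4 = -(J4 * ρ)) : J4 * ρᵀ = -(ρ * J4) := by
  have h1 : J4 * ρᵀ = -(J4 * (ρᵀ * J4) * J4) := by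
    have : J4 * (ρᵀ * J4) * J4 = J4 * ρᵀ * (J4 * J4) := by simp only [Matrix.mul_assoc]
    rw [this, J4_sq, Matrix.mul_neg, Matrix.mul_one, neg_neg]
  rw [h1, h, Matrix.mul_neg, Matrix.neg_mul, neg_neg, ← Matrix.mul_assoc J4, J4_sq]
  simp

theorem J4_sum : ∑ a, ∑ b, J4 a b * J4 a b = 4 := by
  simp [J4, Fin.sum_univ_four]
  norm_num

/-- One variable. -/
theorem k1 (hR : Irr J4 R) {f : Fin 4 → ℂ} (h : ∀ ρ ∈ R, ∀ a, ∑ t, ρ t a * f t = 0) : f = 0 := by
  have h0 : ∀ ρ ∈ R, ρᵀ *ᵥ f = 0 := by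
    intro ρ hρ
    funext a
    exact h ρ hρ a
  have h1 : ∀ ρ ∈ R, ρ *ᵥ (J4 *ᵥ f) = 0 := by
    intro ρ hρ
    have h2 := J_tr (hR.sk ρ hρ)
    have h3 : ρ * J4 = -(J4 * ρᵀ) := by rw [h2, neg_neg]
    rw [mulVec_mulVec, h3, neg_mulVec, ← mulVec_mulVec, h0 ρ hρ, mulVec_zero, neg_zero]
  have h2 := hR.irr (Submodule.span ℂ {J4 *ᵥ f}) (by
    intro ρ hρ w hw
    obtain ⟨c, rfl⟩ := Submodule.mem_span_singleton.mp hw
    rw [mulVec_smul, h1 ρ hρ, smul_zero]
    exact Submodule.zero_mem _)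
  have h3 : J4 *ᵥ f = 0 := by
    rcases h2 with h2 | h2
    · exact Submodule.span_singleton_eq_bot.mp h2
    · exfalso
      have h4 := finrank_span_le_card (R := ℂ) ({J4 *ᵥ f} : Set (Fin 4 → ℂ))
      rw [h2, finrank_top, Module.finrank_fin_fun] at h4
      simp at h4
  have h4 : (J4 * J4) *ᵥ f = 0 := by rw [← mulVec_mulVec, h3, mulVec_zero]
  rw [J4_sq, neg_mulVec, one_mulVec, neg_eq_zero] at h4
  exact h4

/-- Two variables. -/
theorem k2 (hR : Irr J4 R) {M : Matrix (Fin 4) (Fin 4) ℂ} (h : ∀ ρ ∈ R, ρᵀ * M + M * ρ = 0)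
    (hc : ∑ a, ∑ b, J4 a b * M a b = 0) : M = 0 := by
  obtain ⟨z, hz⟩ := hR.comm (J4 * M) (by
    intro ρ hρ
    have h1 : M * ρ = -(ρᵀ * M) := eq_neg_of_add_eq_zero_right (h ρ hρ)
    rw [Matrix.mul_assoc, h1, Matrix.mul_neg, ← Matrix.mul_assoc, J_tr (hR.sk ρ hρ),
      Matrix.neg_mul, neg_neg, Matrix.mul_assoc])
  have h1 : M = -(z • J4) := by
    have h2 : J4 * (J4 * M) = z • J4 := by rw [hz, mul_smul_comm, Matrix.mul_one]
    rw [← Matrix.mul_assoc, J4_sq, neg_one_mul] at h2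
    rw [← h2, neg_neg]
  have h2 : z = 0 := by
    have h3 : ∑ a, ∑ b, J4 a b * M a b = -(z * ∑ a, ∑ b, J4 a b * J4 a b) := by
      rw [h1, Finset.mul_sum, ← Finset.sum_neg_distrib]
      refine Finset.sum_congr rfl fun a _ => ?_
      rw [Finset.mul_sum, ← Finset.sum_neg_distrib]
      refine Finset.sum_congr rfl fun b _ => ?_
      rw [Matrix.neg_apply, Matrix.smul_apply, smul_eq_mul]
      ring
    rw [h3, J4_sum] at hc
    linear_combination (-1 / 4 : ℂ) * hc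
  rw [h1, h2, zero_smul, neg_zero]

/-- The self-adjoint matrix of an alternating matrix. -/
theorem alt_S0 {M : Matrix (Fin 4) (Fin 4) ℂ} (h : Mᵀ = -M) (hc : ∑ a, ∑ b, J4 a b * M a b = 0) :
    -(J4 * M) ∈ S0 J4 ∧ M = J4 * -(J4 * M) := by
  have h1 : J4 * -(J4 * M) = M := by
    rw [mul_neg, ← mul_assoc, J4_sq]; simp
  refine ⟨⟨?_, ?_⟩, h1.symm⟩
  · rw [h1, transpose_neg, transpose_mul, h, J4_tr, neg_mul_neg, neg_mul, mul_assoc, J4_sq]
    simp
  · rw [trace_neg, neg_eq_zero]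
    have h2 : trace (J4 * M) = ∑ a, ∑ b, J4 a b * M b a := by
      simp only [trace, Matrix.diag_apply, mul_apply]
    rw [h2, ← neg_eq_zero, ← hc, ← Finset.sum_neg_distrib]
    refine Finset.sum_congr rfl fun p _ => ?_
    rw [← Finset.sum_neg_distrib]
    refine Finset.sum_congr rfl fun q _ => ?_
    have h3 : M q p = -M p q := congrFun (congrFun h p) q
    rw [h3, mul_neg, neg_neg]

/-- The action on the self-adjoint matrix of an alternating matrix. -/
theorem ad_alt {ρ M : Matrix (Fin 4) (Fin 4) ℂ} (hρ : ρᵀ * J4 = -(J4 * ρ)) :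
    ρ * -(J4 * M) - -(J4 * M) * ρ = J4 * (ρᵀ * M + M * ρ) := by
  have h1 := J_tr hρ
  rw [mul_add, ← mul_assoc J4 ρᵀ, h1]
  noncomm_ring

theorem S0c (x : Fin 5 → ℂ) : (S0coord.symm x).1 =
    !![x 0, 0, x 1, x 2; 0, x 0, x 3, x 4; x 4, -x 2, -x 0, 0; -x 3, x 1, 0, -x 0] := rfl

theorem tr_y0 (A : Matrix (Fin 4) (Fin 4) ℂ) :
    trace ((S0coord.symm ![1, 0, 0, 0, 0]).1 * A) = A 0 0 + A 1 1 - A 2 2 - A 3 3 := by
  rw [S0c]
  simp only [trace, Matrix.diag_apply, mul_apply, Fin.sum_univ_four]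
  simp
  ring

theorem tr_y1 (A : Matrix (Fin 4) (Fin 4) ℂ) :
    trace ((S0coord.symm ![0, 1, 0, 0, 0]).1 * A) = A 2 0 + A 1 3 := by
  rw [S0c]
  simp only [trace, Matrix.diag_apply, mul_apply, Fin.sum_univ_four]
  simp

theorem tr_y2 (A : Matrix (Fin 4) (Fin 4) ℂ) :
    trace ((S0coord.symm ![0, 0, 1, 0, 0]).1 * A) = A 3 0 - A 1 2 := by
  rw [S0c]
  simp only [trace, Matrix.diag_apply, mul_apply, Fin.sum_univ_four]
  simp
  ring

theorem J_y : (J4 * (S0coord.symm ![1, 0, 0, 0, 0]).1) 0 1 = 1 ∧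
    (J4 * (S0coord.symm ![0, 1, 0, 0, 0]).1) 2 1 = 1 ∧
    (J4 * (S0coord.symm ![0, 0, 1, 0, 0]).1) 3 1 = 1 := by
  rw [S0c, S0c, S0c]
  simp [J4, Matrix.mul_apply, Fin.sum_univ_four, Matrix.of_apply]

theorem J_M (A : Matrix (Fin 4) (Fin 4) ℂ) : (J4 * A) 1 0 = -A 0 0 ∧ (J4 * A) 2 0 = A 3 0 ∧
    (J4 * A) 3 0 = -A 2 0 ∧ (J4 * A) 0 0 = A 1 0 := by
  simp [J4, Matrix.mul_apply, Fin.sum_univ_four, Matrix.of_apply]

theorem con_J (f : Fin 4 → Fin 4 → ℂ) :
    ∑ a, ∑ c, J4 a c * f a c = f 0 1 - f 1 0 + f 2 3 - f 3 2 := by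
  simp [J4, Fin.sum_univ_four, Matrix.of_apply]
  ring

/-- Three variables, two of them of the same colour. -/
theorem k3 (hR : Irr J4 R) {m : Fin 4 → Fin 4 → Fin 4 → ℂ} (h1 : ∀ a b c, m b a c = -m a b c)
    (h2 : ∀ c, ∑ a, ∑ b, J4 a b * m a b c = 0)
    (h3 : ∀ ρ ∈ R, ∀ a b c, ∑ t, (ρ t a * m t b c + ρ t b * m a t c + ρ t c * m a b t) = 0)
    (a b c : Fin 4) : m a b c = 0 := by
  let M : Fin 4 → Matrix (Fin 4) (Fin 4) ℂ := fun c => of fun a b => m a b c
  have hM : ∀ c, (M c)ᵀ = -M c := fun c => by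
    ext a b
    exact h1 a b c
  let σ : Fin 4 → S0 J4 := fun c => ⟨-(J4 * M c), (alt_S0 (hM c) (h2 c)).1⟩
  have hσ : ∀ c, M c = J4 * (σ c).1 := fun c => (alt_S0 (hM c) (h2 c)).2
  let L : (Fin 4 → ℂ) →ₗ[ℂ] S0 J4 :=
    { toFun := fun u => ∑ c, u c • σ c
      map_add' := fun u v => by
        simp only [Pi.add_apply, add_smul, Finset.sum_add_distrib]
      map_smul' := fun z u => by
        simp only [Pi.smul_apply, smul_eq_mul, mul_smul, Finset.smul_sum, RingHom.id_apply] }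
  have hL1 : ∀ u, (L u).1 = ∑ c, u c • (σ c).1 := by
    intro u
    change ((∑ c, u c • σ c : S0 J4) : Matrix (Fin 4) (Fin 4) ℂ) = _
    rw [Submodule.coe_sum]
    rfl
  have had : ∀ ρ ∈ R, ∀ c, ρ * (σ c).1 - (σ c).1 * ρ = -∑ t, ρ t c • (J4 * M t) := by
    intro ρ hρ c
    change ρ * -(J4 * M c) - -(J4 * M c) * ρ = _
    rw [ad_alt (hR.sk ρ hρ)]
    have e1 : ρᵀ * M c + M c * ρ = -∑ t, ρ t c • M t := by
      ext a b
      have e2 := h3 ρ hρ a b c
      rw [Matrix.add_apply, Matrix.neg_apply, mul_apply, mul_apply, Matrix.sum_apply]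
      rw [eq_neg_iff_add_eq_zero, ← e2, ← Finset.sum_add_distrib, ← Finset.sum_add_distrib]
      refine Finset.sum_congr rfl fun t _ => ?_
      simp only [transpose_apply, M, of_apply, Matrix.smul_apply, smul_eq_mul]
      ring
    rw [e1, mul_neg, Finset.mul_sum]
    simp only [mul_smul_comm]
  have hL : LinearMap.range L = ⊥ ∨ LinearMap.range L = ⊤ := by
    refine S0_irr hR _ ?_
    rintro ρ hρ _ ⟨u, rfl⟩
    refine ⟨ρ *ᵥ u, Subtype.ext ?_⟩
    rw [hL1]
    change _ = ρ * (L u).1 - (L u).1 * ρ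
    rw [hL1, Finset.mul_sum, Finset.sum_mul, ← Finset.sum_sub_distrib]
    have e1 : ∀ c, ρ * (u c • (σ c).1) - u c • (σ c).1 * ρ
        = ∑ t, (ρ t c * u c) • (σ t).1 := by
      intro c
      rw [mul_smul_comm, smul_mul_assoc, ← smul_sub, had ρ hρ c, ← Finset.sum_neg_distrib,
        Finset.smul_sum]
      refine Finset.sum_congr rfl fun t _ => ?_
      change u c • -(ρ t c • (J4 * M t)) = (ρ t c * u c) • -(J4 * M t)
      rw [smul_neg, smul_neg, smul_smul, mul_comm]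
    rw [Finset.sum_congr rfl fun c _ => e1 c, Finset.sum_comm]
    refine Finset.sum_congr rfl fun t _ => ?_
    rw [← Finset.sum_smul]
    rfl
  have hL0 : LinearMap.range L = ⊥ := by
    rcases hL with h | h
    · exact h
    · exfalso
      have e1 := LinearMap.finrank_range_le L
      rw [h, finrank_top, finrank_S0, Module.finrank_fin_fun] at e1
      omega
  have h4 : ∀ c, σ c = 0 := by
    intro c
    have e1 : L (Pi.single c 1) = 0 := by
      have e2 : L (Pi.single c 1) ∈ LinearMap.range L := ⟨_, rfl⟩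
      rwa [hL0, Submodule.mem_bot] at e2
    have e2 : L (Pi.single c 1) = σ c := by
      change ∑ t, (Pi.single c 1 : Fin 4 → ℂ) t • σ t = _
      rw [Finset.sum_eq_single c]
      · rw [Pi.single_eq_same, one_smul]
      · intro t _ ht
        rw [Pi.single_eq_of_ne ht, zero_smul]
      · intro h; exact absurd (Finset.mem_univ _) h
    rw [← e2, e1]
  have h5 : M c = 0 := by rw [hσ c, h4 c]; exact mul_zero _
  exact congrFun (congrFun h5 a) b

/-- Four variables of two colours. -/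
theorem k4 (hR : Irr J4 R) {m : Fin 4 → Fin 4 → Fin 4 → Fin 4 → ℂ}
    (h1 : ∀ a b c d, m b a c d = -m a b c d) (h1' : ∀ a b c d, m a b d c = -m a b c d)
    (h2 : ∀ c d, ∑ a, ∑ b, J4 a b * m a b c d = 0)
    (h2' : ∀ a b, ∑ c, ∑ d, J4 c d * m a b c d = 0)
    (h2'' : ∀ b d, ∑ a, ∑ c, J4 a c * m a b c d = 0)
    (h3 : ∀ ρ ∈ R, ∀ a b c d, ∑ t, (ρ t a * m t b c d + ρ t b * m a t c d + ρ t c * m a b t d
      + ρ t d * m a b c t) = 0)
    (a b c d : Fin 4) : m a b c d = 0 := by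
  let M : Fin 4 → Fin 4 → Matrix (Fin 4) (Fin 4) ℂ := fun c d => of fun a b => m a b c d
  have hM : ∀ c d, (M c d)ᵀ = -M c d := fun c d => by
    ext a b
    exact h1 a b c d
  let σ : Fin 4 → Fin 4 → S0 J4 := fun c d => ⟨-(J4 * M c d), (alt_S0 (hM c d) (h2 c d)).1⟩
  have hσ : ∀ c d, M c d = J4 * (σ c d).1 := fun c d => (alt_S0 (hM c d) (h2 c d)).2
  have hσ' : ∀ c d, (σ c d).1 = -(J4 * M c d) := fun c d => rfl
  -- the matrix of the values
  let N : S0 J4 → Matrix (Fin 4) (Fin 4) ℂ := fun y => of fun c d => trace (y.1 * (σ c d).1)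
  have hN : ∀ y c d, N y c d = trace (y.1 * (σ c d).1) := fun y c d => rfl
  have hN1 : ∀ y, (N y)ᵀ = -N y := by
    intro y
    ext c d
    rw [transpose_apply, Matrix.neg_apply, hN, hN]
    have e1 : (σ d c).1 = -(σ c d).1 := by
      rw [hσ', hσ']
      have e2 : M d c = -M c d := by
        ext a b
        exact h1' a b c d
      rw [e2, mul_neg]
    rw [e1, mul_neg, trace_neg]
  have hN2 : ∀ y, ∑ c, ∑ d, J4 c d * N y c d = 0 := by
    intro y
    have e1 : ∑ c, ∑ d, J4 c d * N y c d = trace (y.1 * -(J4 * ∑ c, ∑ d, J4 c d • M c d)) := by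
      simp only [Finset.mul_sum, ← Finset.sum_neg_distrib, trace_sum, hN, hσ', mul_smul_comm,
        ← smul_neg, trace_smul, smul_eq_mul]
    rw [e1]
    have e2 : ∑ c, ∑ d, J4 c d • M c d = 0 := by
      ext a b
      have e3 := h2' a b
      rw [Matrix.sum_apply, Matrix.zero_apply, ← e3]
      refine Finset.sum_congr rfl fun c _ => ?_
      rw [Matrix.sum_apply]
      rfl
    rw [e2, mul_zero, neg_zero, mul_zero, trace_zero]
  let T : S0 J4 →ₗ[ℂ] S0 J4 :=
    { toFun := fun y => ⟨-(J4 * N y), (alt_S0 (hN1 y) (hN2 y)).1⟩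
      map_add' := fun y y' => by
        apply Subtype.ext
        have e1 : N (y + y') = N y + N y' := by
          ext c d
          rw [Matrix.add_apply, hN, hN, hN, Submodule.coe_add, add_mul, trace_add]
        change -(J4 * N (y + y')) = -(J4 * N y) + -(J4 * N y')
        rw [e1, mul_add, neg_add]
      map_smul' := fun z y => by
        apply Subtype.ext
        have e1 : N (z • y) = z • N y := by
          ext c d
          rw [Matrix.smul_apply, hN, hN, Submodule.coe_smul, smul_mul_assoc, trace_smul]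
        change -(J4 * N (z • y)) = z • -(J4 * N y)
        rw [e1, mul_smul_comm, smul_neg] }
  have hT : ∀ y, (T y).1 = -(J4 * N y) := fun y => rfl
  have hT' : ∀ y, N y = J4 * (T y).1 := fun y => (alt_S0 (hN1 y) (hN2 y)).2
  have had : ∀ ρ ∈ R, ∀ c d, ρ * (σ c d).1 - (σ c d).1 * ρ
      = ∑ t, (ρ t c • (σ t d).1 + ρ t d • (σ c t).1) := by
    intro ρ hρ c d
    change ρ * -(J4 * M c d) - -(J4 * M c d) * ρ = _
    rw [ad_alt (hR.sk ρ hρ)]
    have e1 : ρᵀ * M c d + M c d * ρ = -∑ t, (ρ t c • M t d + ρ t d • M c t) := by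
      ext a b
      have e2 := h3 ρ hρ a b c d
      rw [Matrix.add_apply, Matrix.neg_apply, mul_apply, mul_apply, Matrix.sum_apply]
      rw [eq_neg_iff_add_eq_zero, ← e2, ← Finset.sum_add_distrib, ← Finset.sum_add_distrib]
      refine Finset.sum_congr rfl fun t _ => ?_
      simp only [transpose_apply, M, of_apply, Matrix.smul_apply, Matrix.add_apply, smul_eq_mul]
      ring
    rw [e1, mul_neg, Finset.mul_sum, ← Finset.sum_neg_distrib]
    refine Finset.sum_congr rfl fun t _ => ?_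
    rw [hσ', hσ', mul_add, mul_smul_comm, mul_smul_comm, smul_neg, smul_neg]
    abel
  obtain ⟨z, hz⟩ := S0_scal hR T (by
    intro ρ hρ y
    rw [hT]
    have e1 : N ⟨ρ * y.1 - y.1 * ρ, S0_ad y.2 (hR.sk ρ hρ)⟩ = -(ρᵀ * N y + N y * ρ) := by
      ext c d
      rw [hN, Matrix.neg_apply, Matrix.add_apply, mul_apply, mul_apply, tr_ad, had ρ hρ c d,
        Finset.mul_sum, trace_sum, ← Finset.sum_add_distrib]
      congr 1
      refine Finset.sum_congr rfl fun t _ => ?_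
      rw [mul_add, mul_smul_comm, mul_smul_comm, trace_add, trace_smul, trace_smul, smul_eq_mul,
        smul_eq_mul, transpose_apply, hN, hN]
      ring
    rw [e1, hT, ad_alt (hR.sk ρ hρ)]
    rw [mul_neg, neg_neg])
  have hz' : ∀ (y : S0 J4) c d, trace (y.1 * (σ c d).1) = z * (J4 * y.1) c d := by
    intro y c d
    rw [← hN, hT', hz y]
    change (J4 * (z • y.1)) c d = _
    rw [mul_smul_comm, Matrix.smul_apply, smul_eq_mul]
  have hm : ∀ a b c d, m a b c d = (J4 * (σ c d).1) a b := by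
    intro a b c d
    rw [← hσ]
    rfl
  have hz0 : z = 0 := by
    have e1 := h2'' 0 1
    rw [con_J fun a c => m a 0 c 1] at e1
    rw [h1 0 0 1 1, hm 1 0 0 1, hm 2 0 3 1, hm 3 0 2 1, (J_M _).1, (J_M _).2.1,
      (J_M _).2.2.1] at e1
    have f0 : m 0 0 1 1 = 0 := by
      have := h1 0 0 1 1
      linear_combination (1 / 2 : ℂ) * this
    have g1 := hz' (S0coord.symm ![1, 0, 0, 0, 0]) 0 1
    have g2 := hz' (S0coord.symm ![0, 0, 1, 0, 0]) 3 1
    have g3 := hz' (S0coord.symm ![0, 1, 0, 0, 0]) 2 1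
    rw [tr_y0, J_y.1] at g1
    rw [tr_y2, J_y.2.2] at g2
    rw [tr_y1, J_y.2.1] at g3
    obtain ⟨a1, a2, a3, -⟩ := S0_entries (σ 0 1).2
    obtain ⟨-, -, -, -, -, -, -, -, -, b1, -⟩ := S0_entries (σ 3 1).2
    obtain ⟨-, -, -, -, -, -, -, -, -, -, b2⟩ := S0_entries (σ 2 1).2
    rw [a1, a2, a3] at g1
    have g2' : 2 * (σ 3 1).1 3 0 = z := by linear_combination g2 + b1
    have g3' : 2 * (σ 2 1).1 2 0 = z := by linear_combination g3 + b2
    linear_combination (4 / 5 : ℂ) * e1 + (4 / 5 : ℂ) * f0 - (1 / 5 : ℂ) * g1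
      - (2 / 5 : ℂ) * g2' - (2 / 5 : ℂ) * g3'
  have h4 : σ c d = 0 := by
    refine qf_zero fun y => ?_
    rw [qf_symm, qf_apply, hz', hz0, zero_mul]
  rw [hm, h4]
  simp

end Pool.Agent.V5helper88.KK
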