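import Pool.Agent.V5helper88.K.K1

/-!
Invariant tensors in one class of variables with two colours vanish.
-/

set_option autoImplicit false

namespace Pool.Agent.V5helper88.KK

open Matrix Module Function Pool.Agent.V5helper88.HR

variable {R : Set (Matrix (Fin 4) (Fin 4) ℂ)} {κ : Type} [DecidableEq κ] {Γ : Type}
  [DecidableEq Γ]

/-- Invariant tensors without contractions, alternating in the variables of the same colour. -/
structure InvT (R : Set (Matrix (Fin 4) (Fin 4) ℂ)) (S : Finset κ) (col : κ → Γ)
    (ψ : (κ → Fin 4) → ℂ) : Prop where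
  inv : ∀ ρ ∈ R, ∀ i, ∑ s ∈ S, ∑ t, ρ t (i s) * ψ (update i s t) = 0
  con : ∀ s ∈ S, ∀ s' ∈ S, s ≠ s' → ∀ i,
    ∑ p, ∑ q, J4 p q * ψ (update (update i s p) s' q) = 0
  alt : ∀ s ∈ S, ∀ s' ∈ S, s ≠ s' → col s = col s' → ∀ i p q,
    ψ (update (update i s q) s' p) = -ψ (update (update i s p) s' q)

variable {S : Finset κ} {col : κ → Γ} {ψ : (κ → Fin 4) → ℂ}

theorem inv_tri (h : InvT R S col ψ) {s s' s'' : κ} (hs : s ∈ S) (hs' : s' ∈ S) (hs'' : s'' ∈ S)
    (h1 : s ≠ s') (h2 : s ≠ s'') (h3 : s' ≠ s'') (c1 : col s = col s') (c2 : col s' = col s'') :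
    ψ = 0 := by
  funext i
  let g : Fin 4 → Fin 4 → Fin 4 → ℂ := fun a b c =>
    ψ (update (update (update i s a) s' b) s'' c)
  have e1 : ∀ a b c, update (update (update i s a) s' b) s'' c
      = update (update (update i s'' c) s a) s' b := by
    intro a b c
    rw [update_comm h3, update_comm h2]
  have hg : ∀ a b c, g a b c = 0 := by
    refine tri_aux g (fun a b c => ?_) (fun a b c => ?_) (fun c => ?_)
    · change ψ _ = -ψ _
      rw [e1, e1]
      exact h.alt s hs s' hs' h1 c1 _ _ _
    · exact h.alt s' hs' s'' hs'' h3 c2 _ _ _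
    · have h4 := h.con s hs s' hs' h1 (update i s'' c)
      rw [← h4]
      refine Finset.sum_congr rfl fun a _ => Finset.sum_congr rfl fun b _ => ?_
      change J4 a b * ψ _ = _
      rw [e1]
  have h4 := hg (i s) (i s') (i s'')
  change ψ _ = 0 at h4
  rw [update_eq_self, update_eq_self, update_eq_self] at h4
  exact h4

theorem inv_one (hR : Irr J4 R) {s : κ} (h : InvT R {s} col ψ) : ψ = 0 := by
  funext i
  have h1 := k1 hR (f := fun t => ψ (update i s t)) (by
    intro ρ hρ a
    have h2 := h.inv ρ hρ (update i s a)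
    rw [Finset.sum_singleton, update_self] at h2
    rw [← h2]
    refine Finset.sum_congr rfl fun t _ => ?_
    rw [update_idem])
  have h2 := congrFun h1 (i s)
  change ψ _ = 0 at h2
  rw [update_eq_self] at h2
  exact h2

theorem inv_two (hR : Irr J4 R) {s s' : κ} (hne : s ≠ s') (h : InvT R {s, s'} col ψ) :
    ψ = 0 := by
  funext i
  have hs : s ∈ ({s, s'} : Finset κ) := by simp
  have hs' : s' ∈ ({s, s'} : Finset κ) := by simp
  have h1 := k2 hR (M := of fun a b => ψ (update (update i s a) s' b)) (by
    intro ρ hρ
    ext a b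
    have h2 := h.inv ρ hρ (update (update i s a) s' b)
    rw [Finset.sum_pair hne, update_self, update_of_ne hne, update_self] at h2
    rw [Matrix.add_apply, mul_apply, mul_apply, Matrix.zero_apply, ← h2]
    have e : ∀ t, update (update (update i s a) s' b) s t = update (update i s t) s' b :=
      fun t => by rw [update_comm hne.symm, update_idem]
    congr 1
    · refine Finset.sum_congr rfl fun t _ => ?_
      rw [transpose_apply, of_apply, e]
    · refine Finset.sum_congr rfl fun t _ => ?_
      rw [of_apply, update_idem, mul_comm]) (h.con s hs s' hs' hne i)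
  have h2 := congrFun (congrFun h1 (i s)) (i s')
  change ψ _ = 0 at h2
  rw [update_eq_self, update_eq_self] at h2
  exact h2

theorem inv_three (hR : Irr J4 R) {s s' t : κ} (h1 : s ≠ s') (h2 : s ≠ t) (h3 : s' ≠ t)
    (hS : S = {s, s', t}) (c : col s = col s') (h : InvT R S col ψ) : ψ = 0 := by
  subst hS
  funext i
  have hs : s ∈ ({s, s', t} : Finset κ) := by simp
  have hs' : s' ∈ ({s, s', t} : Finset κ) := by simp
  let U : Fin 4 → Fin 4 → Fin 4 → κ → Fin 4 := fun a b c => update (update (update i s a) s' b) t c
  have e0 : ∀ a b c, U a b c = update (update (update i t c) s a) s' b := by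
    intro a b c
    change update (update (update i s a) s' b) t c = _
    rw [update_comm h3, update_comm h2]
  have e1 : ∀ a b c x, update (U a b c) s x = U x b c := by
    intro a b c x
    rw [e0, e0, update_comm h1.symm, update_idem]
  have e2 : ∀ a b c x, update (U a b c) s' x = U a x c := by
    intro a b c x
    rw [e0, e0, update_idem]
  have e3 : ∀ a b c x, update (U a b c) t x = U a b x := fun a b c x => update_idem _ _ _
  have v1 : ∀ a b c, U a b c s = a := by
    intro a b c
    rw [e0, update_of_ne h1, update_self]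
  have v2 : ∀ a b c, U a b c s' = b := by
    intro a b c
    rw [e0, update_self]
  have v3 : ∀ a b c, U a b c t = c := fun a b c => update_self _ _ _
  have h4 := k3 hR (m := fun a b c => ψ (U a b c))
    (fun a b c' => by
      change ψ (U _ _ _) = -ψ (U _ _ _)
      rw [e0, e0]
      exact h.alt s hs s' hs' h1 c _ _ _)
    (fun c' => by
      have h5 := h.con s hs s' hs' h1 (update i t c')
      rw [← h5]
      refine Finset.sum_congr rfl fun a _ => Finset.sum_congr rfl fun b _ => ?_
      rw [e0])
    (fun ρ hρ a b c' => by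
      have h5 := h.inv ρ hρ (U a b c')
      rw [Finset.sum_insert (by simp [h1, h2]), Finset.sum_insert (by simp [h3]),
        Finset.sum_singleton, v1, v2, v3] at h5
      simp only [e1, e2, e3] at h5
      rw [← h5, Finset.sum_add_distrib, Finset.sum_add_distrib, add_assoc])
    (i s) (i s') (i t)
  have h5 : U (i s) (i s') (i t) = i := by
    change update (update (update i s (i s)) s' (i s')) t (i t) = i
    rw [update_eq_self, update_eq_self, update_eq_self]
  change ψ (U _ _ _) = 0 at h4
  rw [h5] at h4
  exact h4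

theorem inv_four (hR : Irr J4 R) {s s' t t' : κ} (h1 : s ≠ s') (h2 : s ≠ t) (h3 : s ≠ t')
    (h4 : s' ≠ t) (h5 : s' ≠ t') (h6 : t ≠ t')
    (hS : S = {s, s', t, t'}) (c : col s = col s') (c' : col t = col t') (h : InvT R S col ψ) :
    ψ = 0 := by
  subst hS
  funext i
  have hs : s ∈ ({s, s', t, t'} : Finset κ) := by simp
  have hs' : s' ∈ ({s, s', t, t'} : Finset κ) := by simp
  have ht : t ∈ ({s, s', t, t'} : Finset κ) := by simp
  have ht' : t' ∈ ({s, s', t, t'} : Finset κ) := by simp
  let U : Fin 4 → Fin 4 → Fin 4 → Fin 4 → κ → Fin 4 := fun a b c d =>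
    update (update (update (update i s a) s' b) t c) t' d
  have e0 : ∀ a b c d, U a b c d = update (update (update (update i t c) t' d) s a) s' b := by
    intro a b c d
    change update (update (update (update i s a) s' b) t c) t' d = _
    rw [update_comm h4, update_comm h5, update_comm h2, update_comm h3]
  have e0' : ∀ a b c d, U a b c d = update (update (update (update i s' b) t' d) s a) t c := by
    intro a b c d
    rw [e0]
    rw [update_comm h1, update_comm h5.symm, update_comm h4.symm]
    rw [update_comm h6, update_comm h2.symm]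
  have e1 : ∀ a b c d x, update (U a b c d) s x = U x b c d := by
    intro a b c d x
    rw [e0, e0, update_comm h1.symm, update_idem]
  have e2 : ∀ a b c d x, update (U a b c d) s' x = U a x c d := by
    intro a b c d x
    rw [e0, e0, update_idem]
  have e3 : ∀ a b c d x, update (U a b c d) t x = U a b x d := by
    intro a b c d x
    change update (update (update (update (update i s a) s' b) t c) t' d) t x = _
    rw [update_comm h6.symm, update_idem]
  have e4 : ∀ a b c d x, update (U a b c d) t' x = U a b c x := fun a b c d x => update_idem _ _ _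
  have v1 : ∀ a b c d, U a b c d s = a := by
    intro a b c d
    rw [e0, update_of_ne h1, update_self]
  have v2 : ∀ a b c d, U a b c d s' = b := by
    intro a b c d
    rw [e0, update_self]
  have v3 : ∀ a b c d, U a b c d t = c := by
    intro a b c d
    have e5 : U a b c d = update (update (update (update i s a) s' b) t c) t' d := rfl
    rw [e5, update_of_ne h6, update_self]
  have v4 : ∀ a b c d, U a b c d t' = d := fun a b c d => update_self _ _ _
  have h7 := k4 hR (m := fun a b c d => ψ (U a b c d))
    (fun a b c' d => by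
      change ψ (U _ _ _ _) = -ψ (U _ _ _ _)
      rw [e0, e0]
      exact h.alt s hs s' hs' h1 c _ _ _)
    (fun a b c'' d => h.alt t ht t' ht' h6 c' _ _ _)
    (fun c' d => by
      have h5 := h.con s hs s' hs' h1 (update (update i t c') t' d)
      rw [← h5]
      refine Finset.sum_congr rfl fun a _ => Finset.sum_congr rfl fun b _ => ?_
      rw [e0])
    (fun a b => h.con t ht t' ht' h6 _)
    (fun b d => by
      have h5 := h.con s hs t ht h2 (update (update i s' b) t' d)
      rw [← h5]
      refine Finset.sum_congr rfl fun a _ => Finset.sum_congr rfl fun b _ => ?_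
      rw [e0'])
    (fun ρ hρ a b c' d => by
      have h8 := h.inv ρ hρ (U a b c' d)
      rw [Finset.sum_insert (by simp [h1, h2, h3]), Finset.sum_insert (by simp [h4, h5]),
        Finset.sum_pair h6, v1, v2, v3, v4] at h8
      simp only [e1, e2, e3, e4] at h8
      rw [← h8, Finset.sum_add_distrib, Finset.sum_add_distrib, Finset.sum_add_distrib, add_assoc,
        add_assoc])
    (i s) (i s') (i t) (i t')
  have h8 : U (i s) (i s') (i t) (i t') = i := by
    change update (update (update (update i s (i s)) s' (i s')) t (i t)) t' (i t') = i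
    rw [update_eq_self, update_eq_self, update_eq_self, update_eq_self]
  change ψ (U _ _ _ _) = 0 at h7
  rw [h8] at h7
  exact h7

theorem set_a (x y z : κ) : ({x, y, z} : Finset κ) = {y, z, x} := by
  rw [Finset.insert_comm, Finset.pair_comm]

theorem set_b (x y z : κ) : ({x, y, z} : Finset κ) = {x, z, y} := by
  rw [Finset.pair_comm]

theorem set_c (x y z : κ) : ({x, y, z} : Finset κ) = {y, x, z} := Finset.insert_comm _ _ _

/-- **Invariant tensors in one class of variables with two colours vanish.** -/
theorem class_zero (hR : Irr J4 R) (h : InvT R S col ψ) (hne : S.Nonempty)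
    (h2 : ∀ s ∈ S, ∀ s' ∈ S, ∀ s'' ∈ S, col s = col s' ∨ col s' = col s'' ∨ col s = col s'') :
    ψ = 0 := by
  by_cases htri : ∃ s ∈ S, ∃ s' ∈ S, ∃ s'' ∈ S, s ≠ s' ∧ s ≠ s'' ∧ s' ≠ s'' ∧ col s = col s' ∧
      col s' = col s''
  · obtain ⟨s, hs, s', hs', s'', hs'', e1, e2, e3, c1, c2⟩ := htri
    exact inv_tri h hs hs' hs'' e1 e2 e3 c1 c2
  have hno : ∀ s ∈ S, ∀ s' ∈ S, ∀ s'' ∈ S, s ≠ s' → s ≠ s'' → s' ≠ s'' → col s = col s' →
      col s' ≠ col s'' := by
    intro s hs s' hs' s'' hs'' e1 e2 e3 c1 c2
    exact htri ⟨s, hs, s', hs', s'', hs'', e1, e2, e3, c1, c2⟩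
  have hcard : S.card ≤ 4 := by
    by_contra hcon
    push Not at hcon
    have hi : (S.image col).card ≤ 2 := by
      by_contra h3
      push Not at h3
      obtain ⟨a, ha, b, hb, c, hc, e1, e2, e3⟩ := Finset.two_lt_card.mp h3
      obtain ⟨s, hs, rfl⟩ := Finset.mem_image.mp ha
      obtain ⟨s', hs', rfl⟩ := Finset.mem_image.mp hb
      obtain ⟨s'', hs'', rfl⟩ := Finset.mem_image.mp hc
      rcases h2 s hs s' hs' s'' hs'' with h4 | h4 | h4
      · exact e1 h4
      · exact e3 h4
      · exact e2 h4
    obtain ⟨y, hy, hy'⟩ := Finset.exists_lt_card_fiber_of_mul_lt_card_of_maps_to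
      (s := S) (t := S.image col) (f := col) (n := 2)
      (fun a ha => Finset.mem_image_of_mem col ha) (by omega)
    obtain ⟨a, ha, b, hb, c, hc, e1, e2, e3⟩ := Finset.two_lt_card.mp hy'
    rw [Finset.mem_filter] at ha hb hc
    exact hno a ha.1 b hb.1 c hc.1 e1 e2 e3 (ha.2.trans hb.2.symm) (hb.2.trans hc.2.symm)
  have hpos := Finset.card_pos.mpr hne
  have hcases : S.card = 1 ∨ S.card = 2 ∨ S.card = 3 ∨ S.card = 4 := by omega
  rcases hcases with hc | hc | hc | hc
  · obtain ⟨s, rfl⟩ := Finset.card_eq_one.mp hc
    exact inv_one hR h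
  · obtain ⟨s, s', hs, rfl⟩ := Finset.card_eq_two.mp hc
    exact inv_two hR hs h
  · obtain ⟨x, y, z, e1, e2, e3, hS⟩ := Finset.card_eq_three.mp hc
    have hx : x ∈ S := by rw [hS]; simp
    have hy : y ∈ S := by rw [hS]; simp
    have hz : z ∈ S := by rw [hS]; simp
    rcases h2 x hx y hy z hz with h4 | h4 | h4
    · exact inv_three hR e1 e2 e3 hS h4 h
    · exact inv_three hR (s := y) (s' := z) (t := x) e3 e1.symm e2.symm
        (hS.trans (set_a x y z)) h4 h
    · exact inv_three hR (s := x) (s' := z) (t := y) e2 e1 e3.symm (hS.trans (set_b x y z)) h4 h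
  · obtain ⟨w, T, hw, hT, hTc⟩ := Finset.card_eq_succ.mp hc
    obtain ⟨x, y, z, e1, e2, e3, hT'⟩ := Finset.card_eq_three.mp hTc
    subst hT'
    have hwx : w ≠ x := fun h => hw (by rw [h]; simp)
    have hwy : w ≠ y := fun h => hw (by rw [h]; simp)
    have hwz : w ≠ z := fun h => hw (by rw [h]; simp)
    have hwS : w ∈ S := by rw [← hT]; simp
    have hx : x ∈ S := by rw [← hT]; simp
    have hy : y ∈ S := by rw [← hT]; simp
    have hz : z ∈ S := by rw [← hT]; simp
    have n1 := hno w hwS x hx y hy hwx hwy e1
    have n2 := hno w hwS x hx z hz hwx hwz e2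
    have n3 := hno w hwS y hy z hz hwy hwz e3
    have n4 := hno x hx y hy z hz e1 e2 e3
    have n5 := hno w hwS y hy x hx hwy hwx e1.symm
    have n6 := hno w hwS z hz x hx hwz hwx e2.symm
    have n7 := hno w hwS z hz y hy hwz hwy e3.symm
    have n8 := hno x hx z hz y hy e2 e1 e3.symm
    have m1 := h2 w hwS x hx y hy
    have m2 := h2 w hwS x hx z hz
    have m3 := h2 w hwS y hy z hz
    have m4 := h2 x hx y hy z hz
    have key : (col w = col x ∧ col y = col z) ∨ (col w = col y ∧ col x = col z) ∨
        (col w = col z ∧ col x = col y) := by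
      by_cases a1 : col w = col x
      · left
        refine ⟨a1, ?_⟩
        rcases m4 with h4 | h4 | h4
        · exact absurd h4 (n1 a1)
        · exact h4
        · exact absurd h4 (n2 a1)
      · by_cases a2 : col w = col y
        · right; left
          refine ⟨a2, ?_⟩
          rcases m4 with h4 | h4 | h4
          · exact absurd h4.symm (n5 a2)
          · exact absurd h4 (n3 a2)
          · exact h4
        · right; right
          have a3 : col x = col y := by
            rcases m1 with h4 | h4 | h4
            · exact absurd h4 a1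
            · exact h4
            · exact absurd h4 a2
          refine ⟨?_, a3⟩
          rcases m2 with h4 | h4 | h4
          · exact absurd h4 a1
          · exact absurd (a3.symm.trans h4) (n4 a3)
          · exact h4
    rcases key with ⟨c1, c2⟩ | ⟨c1, c2⟩ | ⟨c1, c2⟩
    · refine inv_four hR (s := w) (s' := x) (t := y) (t' := z) hwx hwy hwz e1 e2 e3 ?_ c1 c2 h
      rw [← hT]
    · refine inv_four hR (s := w) (s' := y) (t := x) (t' := z) hwy hwx hwz e1.symm e3 e2 ?_ c1 c2 h
      rw [← hT, set_c x y z]
    · refine inv_four hR (s := w) (s' := z) (t := x) (t' := y) hwz hwx hwy e2.symm e3.symm e1 ?_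
        c1 c2 h
      rw [← hT, ← set_a z x y]

end Pool.Agent.V5helper88.KK
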