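import Pool.Agent.V5helper88.HR.G8
import Pool.Agent.W516.Cartan

/-!
Lie algebras of skew-adjoint complex matrices with a semisimple action; the commutant may be
noncommutative.
-/

set_option autoImplicit false

namespace Pool.Agent.V5helper88.KK

open Matrix Module Function Pool.Agent.V5helper88.HR

variable {ι : Type} [Fintype ι] [DecidableEq ι]

/-- A Lie algebra of skew-adjoint matrices, such that stable subspaces are images of projections in
the commutant. -/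
structure SysW (Ω : Matrix ι ι ℂ) (H : Submodule ℂ (Matrix ι ι ℂ)) : Prop where
  alt : Ωᵀ = -Ω
  nd : ∀ v, Ω *ᵥ v = 0 → v = 0
  br : ∀ X ∈ H, ∀ Y ∈ H, X * Y - Y * X ∈ H
  sk : ∀ X ∈ H, Xᵀ * Ω = -(Ω * X)
  proj : ∀ Y : Submodule ℂ (ι → ℂ), (∀ X ∈ H, ∀ v ∈ Y, X *ᵥ v ∈ Y) →
    ∃ P : Matrix ι ι ℂ, (∀ X ∈ H, P * X = X * P) ∧ (∀ v, P *ᵥ v ∈ Y) ∧ ∀ v ∈ Y, P *ᵥ v = v

variable {Ω : Matrix ι ι ℂ} {H : Submodule ℂ (Matrix ι ι ℂ)}

theorem left_inj (hnd : ∀ v, Ω *ᵥ v = 0 → v = 0) {κ : Type} [Fintype κ] [DecidableEq κ]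
    {A B : Matrix ι κ ℂ} (h : Ω * A = Ω * B) : A = B := by
  rw [← sub_eq_zero]
  have h1 : Ω * (A - B) = 0 := by rw [Matrix.mul_sub, h, sub_self]
  ext i j
  have h2 : (A - B) *ᵥ Pi.single j 1 = 0 := by
    apply hnd
    rw [mulVec_mulVec, h1, zero_mulVec]
  have h3 := congrFun h2 i
  rwa [mulVec_single_one] at h3

theorem bw_nd (halt : Ωᵀ = -Ω) (hnd : ∀ v, Ω *ᵥ v = 0 → v = 0) {v : ι → ℂ}
    (h : ∀ w, bw Ω v w = 0) : v = 0 := by
  apply hnd
  funext i
  have h1 := h (Pi.single i 1)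
  rw [← neg_eq_zero, ← bw_swap halt] at h1
  unfold bw at h1
  simpa using h1

/-- The radical of the trace form is zero if the commutant consists of symmetric matrices. -/
theorem radical_zero (hnd : ∀ v, Ω *ᵥ v = 0 → v = 0)
    (hbr : ∀ X ∈ H, ∀ Y ∈ H, X * Y - Y * X ∈ H) (hsk : ∀ X ∈ H, Xᵀ * Ω = -(Ω * X))
    (hsy : ∀ P, (∀ X ∈ H, P * X = X * P) → Pᵀ * Ω = Ω * P)
    (hproj : ∀ Y : Submodule ℂ (ι → ℂ), (∀ X ∈ H, ∀ v ∈ Y, X *ᵥ v ∈ Y) →
      ∃ P : Matrix ι ι ℂ, (∀ X ∈ H, P * X = X * P) ∧ (∀ v, P *ᵥ v ∈ Y) ∧ ∀ v ∈ Y, P *ᵥ v = v)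
    {X : Matrix ι ι ℂ} (hX : X ∈ H) (h : ∀ Y ∈ H, trace (X * Y) = 0) : X = 0 := by
  classical
  let h' : Submodule ℂ (Module.End ℂ (ι → ℂ)) := H.map (toLinAlgEquiv' (R := ℂ) (n := ι)).toLinearMap
  have hmem : ∀ Z, Z ∈ h' ↔ ∃ X ∈ H, toLin' X = Z := fun Z => Iff.rfl
  have hss : Pool.Agent.W516.KC.Semi h' := by
    intro U hU
    obtain ⟨P, hP, hP1, hP2⟩ := hproj U (fun X hX v hv => by
      have h1 := hU (toLin' X) ⟨X, hX, rfl⟩ v hv
      rwa [toLin'_apply] at h1)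
    refine ⟨LinearMap.ker (toLin' P), ?_, ?_⟩
    · rintro _ ⟨X, hX, rfl⟩ u hu
      change toLin' X u ∈ _
      rw [LinearMap.mem_ker, toLin'_apply] at hu ⊢
      rw [toLin'_apply, mulVec_mulVec, hP X hX, ← mulVec_mulVec, hu, mulVec_zero]
    · refine ⟨?_, ?_⟩
      · rw [Submodule.disjoint_def]
        intro x hx hx'
        rw [LinearMap.mem_ker, toLin'_apply, hP2 x hx] at hx'
        exact hx'
      · rw [codisjoint_iff, eq_top_iff]
        intro x _
        have h1 : x = P *ᵥ x + (x - P *ᵥ x) := by abel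
        rw [h1]
        refine Submodule.add_mem_sup (hP1 x) ?_
        rw [LinearMap.mem_ker, toLin'_apply, mulVec_sub, hP2 _ (hP1 x), sub_self]
  have hbr' : ∀ X ∈ h', ∀ Y ∈ h', X * Y - Y * X ∈ h' := by
    rintro _ ⟨X, hX, rfl⟩ _ ⟨Y, hY, rfl⟩
    refine ⟨_, hbr X hX Y hY, ?_⟩
    change toLinAlgEquiv' (X * Y - Y * X) = toLinAlgEquiv' X * toLinAlgEquiv' Y
      - toLinAlgEquiv' Y * toLinAlgEquiv' X
    rw [map_sub, map_mul, map_mul]
  have hc := Pool.Agent.W516.KC.central_of_trace h' hss hbr' (X := toLinAlgEquiv' X) ⟨X, hX, rfl⟩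
    (by
      rintro _ ⟨Y, hY, rfl⟩
      change LinearMap.trace ℂ _ (toLinAlgEquiv' X * toLinAlgEquiv' Y) = 0
      rw [← map_mul]
      change LinearMap.trace ℂ _ (toLin' (X * Y)) = 0
      rw [Matrix.trace_toLin'_eq, h Y hY])
  have hcm : ∀ Y ∈ H, X * Y = Y * X := by
    intro Y hY
    have h1 := hc (toLinAlgEquiv' Y) ⟨Y, hY, rfl⟩
    rw [← map_mul, ← map_mul] at h1
    exact (toLinAlgEquiv'.injective h1).symm
  have h2 := hsy X hcm
  have h3 := hsk X hX
  rw [h2] at h3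
  apply left_inj hnd
  rw [Matrix.mul_zero]
  have h4 : (2 : ℂ) • (Ω * X) = 0 := by
    rw [two_smul]
    nth_rewrite 1 [h3]
    exact neg_add_cancel _
  exact (smul_eq_zero.mp h4).resolve_left two_ne_zero

/-- Schur's lemma. -/
theorem irr_scalar {κ : Type} [Fintype κ] [DecidableEq κ] {R : Set (Matrix κ κ ℂ)}
    (hirr : ∀ W : Submodule ℂ (κ → ℂ), (∀ X ∈ R, ∀ w ∈ W, X *ᵥ w ∈ W) → W = ⊥ ∨ W = ⊤)
    {P : Matrix κ κ ℂ} (hP : ∀ X ∈ R, P * X = X * P) : ∃ z : ℂ, P = z • (1 : Matrix κ κ ℂ) := by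
  classical
  rcases isEmpty_or_nonempty κ with he | hne
  · exact ⟨0, by ext i; exact (IsEmpty.false i).elim⟩
  obtain ⟨z, hz⟩ := Module.End.exists_eigenvalue (toLin' P)
  refine ⟨z, ?_⟩
  have h1 := hirr (Module.End.eigenspace (toLin' P) z) (by
    intro X hX w hw
    rw [Module.End.mem_eigenspace_iff, toLin'_apply] at hw ⊢
    rw [mulVec_mulVec, hP X hX, ← mulVec_mulVec, hw, mulVec_smul])
  rcases h1 with h1 | h1
  · exact absurd h1 hz
  · apply (toLin').injective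
    refine LinearMap.ext fun w => ?_
    have h2 : w ∈ Module.End.eigenspace (toLin' P) z := by rw [h1]; trivial
    rw [Module.End.mem_eigenspace_iff] at h2
    rw [h2, toLin'_apply, smul_mulVec, one_mulVec]

section frames

variable {κ κ₁ κ₂ : Type} [Fintype κ] [DecidableEq κ] [Fintype κ₁] [DecidableEq κ₁] [Fintype κ₂]
  [DecidableEq κ₂] {K : Matrix κ κ ℂ} {B : Matrix ι κ ℂ} {K₁ : Matrix κ₁ κ₁ ℂ}
  {K₂ : Matrix κ₂ κ₂ ℂ} {B₁ : Matrix ι κ₁ ℂ} {B₂ : Matrix ι κ₂ ℂ}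

theorem fr_sk (hsk : ∀ X ∈ H, Xᵀ * Ω = -(Ω * X)) (hB : Frame Ω H K B) {X : Matrix ι ι ℂ}
    (hX : X ∈ H) : (rho Ω K B X)ᵀ * K = -(K * rho Ω K B X) := by
  have h1 : (rho Ω K B X)ᵀ * (Bᵀ * Ω * B) = (B * rho Ω K B X)ᵀ * Ω * B := by
    rw [transpose_mul]; simp only [Matrix.mul_assoc]
  have h2 : Bᵀ * Ω * B * rho Ω K B X = Bᵀ * Ω * (B * rho Ω K B X) := by
    simp only [Matrix.mul_assoc]
  rw [hB.gram, ← hB.mul_B hX, transpose_mul, Matrix.mul_assoc Bᵀ, hsk X hX] at h1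
  rw [hB.gram, ← hB.mul_B hX] at h2
  rw [h1, h2]
  simp only [Matrix.neg_mul, Matrix.mul_neg, Matrix.mul_assoc]

theorem fr_cof (hsk : ∀ X ∈ H, Xᵀ * Ω = -(Ω * X)) (hB : Frame Ω H K B) {X : Matrix ι ι ℂ}
    (hX : X ∈ H) : cof Ω K B * X = rho Ω K B X * cof Ω K B := by
  have h1 : Ω * X = -(Xᵀ * Ω) := by rw [hsk X hX, neg_neg]
  have h2 : Bᵀ * Xᵀ = (rho Ω K B X)ᵀ * Bᵀ := by
    rw [← transpose_mul, hB.mul_B hX, transpose_mul]
  unfold cof
  have h3 : K * Bᵀ * Ω * X = K * Bᵀ * (Ω * X) := Matrix.mul_assoc _ _ _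
  rw [Matrix.neg_mul, h3, h1, Matrix.mul_neg, neg_neg, ← Matrix.mul_assoc, Matrix.mul_assoc K, h2,
    ← Matrix.mul_assoc, hB.K_tr (fr_sk hsk hB hX)]
  simp only [Matrix.neg_mul, Matrix.mul_neg, Matrix.mul_assoc]

/-- Intertwining matrices give elements of the commutant. -/
theorem fr_cm (hsk : ∀ X ∈ H, Xᵀ * Ω = -(Ω * X)) (h₁ : Frame Ω H K₁ B₁) (h₂ : Frame Ω H K₂ B₂)
    {P : Matrix κ₁ κ₂ ℂ} (hP : ∀ X ∈ H, rho Ω K₁ B₁ X * P = P * rho Ω K₂ B₂ X) :
    Cm H (B₁ * P * cof Ω K₂ B₂) := by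
  intro X hX
  rw [Matrix.mul_assoc, fr_cof hsk h₂ hX, ← Matrix.mul_assoc, Matrix.mul_assoc B₁, ← hP X hX,
    ← Matrix.mul_assoc, ← h₁.mul_B hX]
  simp only [Matrix.mul_assoc]

/-- Elements of the commutant give intertwining matrices. -/
theorem fr_int (hsk : ∀ X ∈ H, Xᵀ * Ω = -(Ω * X)) (h₁ : Frame Ω H K₁ B₁) (h₂ : Frame Ω H K₂ B₂)
    {T : Matrix ι ι ℂ} (hT : Cm H T) {X : Matrix ι ι ℂ} (hX : X ∈ H) :
    rho Ω K₁ B₁ X * (cof Ω K₁ B₁ * T * B₂) = cof Ω K₁ B₁ * T * B₂ * rho Ω K₂ B₂ X := by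
  rw [← Matrix.mul_assoc, ← Matrix.mul_assoc, ← fr_cof hsk h₁ hX, Matrix.mul_assoc (cof Ω K₁ B₁),
    ← hT X hX, ← Matrix.mul_assoc, Matrix.mul_assoc _ X, h₂.mul_B hX, ← Matrix.mul_assoc]

/-- Symplectic bases of nondegenerate stable subspaces of dimension two or four. -/
theorem exists_frame' (halt : Ωᵀ = -Ω) {Y : Submodule ℂ (ι → ℂ)} (hY : Stable H Y) (h0 : Y ≠ ⊥)
    (hnd : ∀ v ∈ Y, (∀ w ∈ Y, bw Ω v w = 0) → v = 0) (h4 : finrank ℂ Y ≤ 4) :
    (∃ B : Matrix ι (Fin 2) ℂ, Frame Ω H J2 B ∧ LinearMap.range B.mulVecLin = Y) ∨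
    ∃ B : Matrix ι (Fin 4) ℂ, Frame Ω H J4 B ∧ LinearMap.range B.mulVecLin = Y := by
  obtain ⟨u, hu, hu0⟩ := Y.ne_bot_iff.mp h0
  have hex : ∀ {u : ι → ℂ} (_ : u ∈ Y) (_ : u ≠ 0), ∃ v ∈ Y, bw Ω u v = 1 := by
    intro u hu hu0
    by_contra hcon
    push Not at hcon
    apply hu0
    refine hnd u hu fun w hw => ?_
    by_contra hne
    apply hcon ((bw Ω u w)⁻¹ • w) (Y.smul_mem _ hw)
    rw [bw_smul_right, inv_mul_cancel₀ hne]
  obtain ⟨v, hv, huv⟩ := hex hu hu0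
  have hvu : bw Ω v u = -1 := by rw [bw_swap halt, huv]
  have hswap := fun a b => bw_swap halt (Ω := Ω) a b
  have hself := fun a => bw_self halt (Ω := Ω) a
  by_cases hspan : ∀ w ∈ Y, w = bw Ω w v • u + (-bw Ω w u) • v
  · left
    let B : Matrix ι (Fin 2) ℂ := of fun k j => ![u k, v k] j
    have hc0 : (fun k => B k 0) = u := by funext k; simp [B]
    have hc1 : (fun k => B k 1) = v := by funext k; simp [B]
    have hBv : ∀ w : Fin 2 → ℂ, B *ᵥ w = w 0 • u + w 1 • v := by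
      intro w
      funext k
      simp only [mulVec, dotProduct, Fin.sum_univ_two, B, of_apply, Pi.add_apply, Pi.smul_apply,
        smul_eq_mul, cons_val_zero, cons_val_one]
      ring
    have hr : LinearMap.range B.mulVecLin = Y := by
      apply le_antisymm
      · rintro _ ⟨w, rfl⟩
        rw [mulVecLin_apply, hBv]
        exact Y.add_mem (Y.smul_mem _ hu) (Y.smul_mem _ hv)
      · intro w hw
        refine ⟨![bw Ω w v, -bw Ω w u], ?_⟩
        rw [mulVecLin_apply, hBv]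
        exact (hspan w hw).symm
    refine ⟨B, ⟨J2_sq, J2_tr, ?_, ?_⟩, hr⟩
    · ext i j
      rw [gram_entry]
      fin_cases i <;> fin_cases j <;> simp only [Fin.zero_eta, Fin.mk_one, hc0, hc1] <;>
        simp [J2, hself, huv, hvu]
    · intro X hX
      have h1 : ∀ j, ∃ r : Fin 2 → ℂ, B *ᵥ r = X *ᵥ (fun k => B k j) := by
        intro j
        have h2 : (fun k => B k j) ∈ Y := by
          fin_cases j
          · change (fun k => B k 0) ∈ Y
            rw [hc0]; exact hu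
          · change (fun k => B k 1) ∈ Y
            rw [hc1]; exact hv
        have h3 := hY X hX _ h2
        rw [← hr] at h3
        exact (Frame.mem_range B).1 h3
      choose R hR using h1
      refine ⟨of fun i j => R j i, ?_⟩
      ext k j
      have h2 := congrFun (hR j) k
      rw [mul_apply, mul_apply]
      exact h2.symm
  · right
    push Not at hspan
    obtain ⟨w, hw, hw0⟩ := hspan
    set w' : ι → ℂ := w - (bw Ω w v • u + (-bw Ω w u) • v) with hw'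
    have hw'Y : w' ∈ Y := Y.sub_mem hw (Y.add_mem (Y.smul_mem _ hu) (Y.smul_mem _ hv))
    have hw'0 : w' ≠ 0 := by
      intro h; exact hw0 (sub_eq_zero.mp h)
    have e1 : bw Ω w' u = 0 := by
      rw [hw', bw_sub_left, bw_add_left, bw_smul_left, bw_smul_left, hself, hvu]; ring
    have e2 : bw Ω w' v = 0 := by
      rw [hw', bw_sub_left, bw_add_left, bw_smul_left, bw_smul_left, hself, huv]; ring
    obtain ⟨z, hz, hwz⟩ := hex hw'Y hw'0
    set z' : ι → ℂ := z - (bw Ω z v • u + (-bw Ω z u) • v) with hz'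
    have hz'Y : z' ∈ Y := Y.sub_mem hz (Y.add_mem (Y.smul_mem _ hu) (Y.smul_mem _ hv))
    have f1 : bw Ω z' u = 0 := by
      rw [hz', bw_sub_left, bw_add_left, bw_smul_left, bw_smul_left, hself, hvu]; ring
    have f2 : bw Ω z' v = 0 := by
      rw [hz', bw_sub_left, bw_add_left, bw_smul_left, bw_smul_left, hself, huv]; ring
    have f3 : bw Ω w' z' = 1 := by
      rw [hz', bw_sub_right, bw_add_right, bw_smul_right, bw_smul_right, hwz, e1, e2]; ring
    have e1' : bw Ω u w' = 0 := by rw [hswap, e1, neg_zero]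
    have e2' : bw Ω v w' = 0 := by rw [hswap, e2, neg_zero]
    have f1' : bw Ω u z' = 0 := by rw [hswap, f1, neg_zero]
    have f2' : bw Ω v z' = 0 := by rw [hswap, f2, neg_zero]
    have f3' : bw Ω z' w' = -1 := by rw [hswap, f3]
    let B : Matrix ι (Fin 4) ℂ := of fun k j => ![u k, v k, w' k, z' k] j
    have hc0 : (fun k => B k 0) = u := by funext k; simp [B]
    have hc1 : (fun k => B k 1) = v := by funext k; simp [B]
    have hc2 : (fun k => B k 2) = w' := by funext k; simp [B]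
    have hc3 : (fun k => B k 3) = z' := by funext k; simp [B]
    have hcY : ∀ j, (fun k => B k j) ∈ Y := by
      intro j
      fin_cases j
      · change (fun k => B k 0) ∈ Y
        rw [hc0]; exact hu
      · change (fun k => B k 1) ∈ Y
        rw [hc1]; exact hv
      · change (fun k => B k 2) ∈ Y
        rw [hc2]; exact hw'Y
      · change (fun k => B k 3) ∈ Y
        rw [hc3]; exact hz'Y
    have hgram : Bᵀ * Ω * B = J4 := by
      ext i j
      rw [gram_entry]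
      fin_cases i <;> fin_cases j <;>
        simp only [Fin.zero_eta, Fin.mk_one, Fin.reduceFinMk, hc0, hc1, hc2, hc3] <;>
        simp [J4, hself, huv, hvu, e1, e2, f1, f2, f3, e1', e2', f1', f2', f3']
    have hle : LinearMap.range B.mulVecLin ≤ Y := by
      rintro _ ⟨w, rfl⟩
      rw [mulVecLin_apply]
      have h1 : B *ᵥ w = ∑ j, w j • fun k => B k j := by
        funext k
        simp only [mulVec, dotProduct, Finset.sum_apply, Pi.smul_apply, smul_eq_mul]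
        exact Finset.sum_congr rfl fun _ _ => mul_comm _ _
      rw [h1]
      exact Y.sum_mem fun j _ => Y.smul_mem _ (hcY j)
    have hinj : Function.Injective B.mulVecLin := by
      rw [injective_iff_map_eq_zero]
      intro x hx
      rw [mulVecLin_apply] at hx
      have h1 : (Bᵀ * Ω * B) *ᵥ x = 0 := by rw [← mulVec_mulVec, hx, mulVec_zero]
      rw [hgram] at h1
      have h2 : (J4 * J4) *ᵥ x = 0 := by rw [← mulVec_mulVec, h1, mulVec_zero]
      rw [J4_sq, neg_mulVec, one_mulVec, neg_eq_zero] at h2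
      exact h2
    have hr : LinearMap.range B.mulVecLin = Y := by
      refine Submodule.eq_of_le_of_finrank_le hle ?_
      rw [LinearMap.finrank_range_of_inj hinj, Module.finrank_fin_fun]
      exact h4
    refine ⟨B, ⟨J4_sq, J4_tr, hgram, ?_⟩, hr⟩
    intro X hX
    have h1 : ∀ j, ∃ r : Fin 4 → ℂ, B *ᵥ r = X *ᵥ (fun k => B k j) := by
      intro j
      have h3 := hY X hX _ (hcY j)
      rw [← hr] at h3
      exact (Frame.mem_range B).1 h3
    choose R hR using h1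
    refine ⟨of fun i j => R j i, ?_⟩
    ext k j
    have h2 := congrFun (hR j) k
    rw [mul_apply, mul_apply]
    exact h2.symm

/-- The dimension of the image of a frame. -/
theorem fr_rank (hB : Frame Ω H K B) :
    finrank ℂ (LinearMap.range B.mulVecLin) = Fintype.card κ := by
  have hinj : Function.Injective B.mulVecLin := by
    rw [injective_iff_map_eq_zero]
    intro x hx
    rw [mulVecLin_apply] at hx
    exact hB.B_inj (by rw [hx, mulVec_zero])
  rw [LinearMap.finrank_range_of_inj hinj, Module.finrank_fintype_fun_eq_card]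

end frames

end Pool.Agent.V5helper88.KK
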