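import Pool.Agent.V5helper88.K.K3
import Pool.Agent.V5helper88.ID.I4

/-!
The system on the sum of pairwise non-isomorphic irreducible subspaces.
-/

set_option autoImplicit false

namespace Pool.Agent.V5helper88.KK

open Matrix Module Function Pool.Agent.V5helper88.HR Pool.Agent.V5helper88.ID

variable {ι : Type} [Fintype ι] [DecidableEq ι] {Ω : Matrix ι ι ℂ}
  {H : Submodule ℂ (Matrix ι ι ℂ)} {C : Type} [Fintype C] [DecidableEq C] {κ : C → Type}
  [∀ c, Fintype (κ c)] [∀ c, DecidableEq (κ c)] {K : ∀ c, Matrix (κ c) (κ c) ℂ}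
  {A : ∀ c, Matrix ι (κ c) ℂ}

/-- The columns of all the matrices. -/
def bigB (A : ∀ c, Matrix ι (κ c) ℂ) : Matrix ι (Σ c, κ c) ℂ := of fun i p => A p.1 i p.2

/-- Frames of pairwise non-isomorphic irreducible subspaces. -/
structure Reps (Ω : Matrix ι ι ℂ) (H : Submodule ℂ (Matrix ι ι ℂ)) (K : ∀ c, Matrix (κ c) (κ c) ℂ)
    (A : ∀ c, Matrix ι (κ c) ℂ) : Prop where
  fr : ∀ c, Frame Ω H (K c) (A c)
  irr : ∀ c, ∀ W : Submodule ℂ (κ c → ℂ), (∀ X ∈ H, ∀ w ∈ W, rho Ω (K c) (A c) X *ᵥ w ∈ W) →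
    W = ⊥ ∨ W = ⊤
  un : ∀ c c', c ≠ c' → ∀ M : Matrix (κ c) (κ c') ℂ,
    (∀ X ∈ H, rho Ω (K c) (A c) X * M = M * rho Ω (K c') (A c') X) → M = 0

theorem bD_neg_one : blockDiagonal' (fun c => (-1 : Matrix (κ c) (κ c) ℂ)) = -1 := by
  rw [← blockDiagonal'_one, ← blockDiagonal'_neg]
  rfl

section

variable (hsk : ∀ X ∈ H, Xᵀ * Ω = -(Ω * X)) (hR : Reps Ω H K A)

include hsk hR

theorem reps_orth {c c' : C} (hne : c ≠ c') : (A c)ᵀ * Ω * A c' = 0 := by
  have h1 : cof Ω (K c) (A c) * A c' = 0 := by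
    refine hR.un c c' hne _ fun X hX => ?_
    have h2 := fr_int hsk (hR.fr c) (hR.fr c') Cm.one hX
    rwa [Matrix.mul_one] at h2
  have h2 : K c * (cof Ω (K c) (A c) * A c') = (A c)ᵀ * Ω * A c' := by
    unfold cof
    have h3 : K c * (-(K c * (A c)ᵀ * Ω) * A c') = -((K c * K c) * ((A c)ᵀ * Ω * A c')) := by
      simp only [Matrix.neg_mul, Matrix.mul_neg, Matrix.mul_assoc]
    rw [h3, (hR.fr c).ksq, Matrix.neg_mul, neg_neg, Matrix.one_mul]
  rw [← h2, h1, Matrix.mul_zero]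

theorem frame_big : Frame Ω H (blockDiagonal' K) (bigB A) := by
  refine ⟨?_, ?_, ?_, fun X hX => ⟨blockDiagonal' fun c => rho Ω (K c) (A c) X, ?_⟩⟩
  · rw [← blockDiagonal'_mul, ← bD_neg_one]
    congr 1
    funext c
    exact (hR.fr c).ksq
  · rw [blockDiagonal'_transpose, ← blockDiagonal'_neg]
    congr 1
    funext c
    exact (hR.fr c).ktr
  · ext ⟨c, i⟩ ⟨c', j⟩
    have h1 : ((bigB A)ᵀ * Ω * bigB A) ⟨c, i⟩ ⟨c', j⟩ = ((A c)ᵀ * Ω * A c') i j := rfl
    rw [h1]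
    by_cases h : c = c'
    · subst h
      rw [(hR.fr c).gram, blockDiagonal'_apply_eq]
    · rw [reps_orth hsk hR h, blockDiagonal'_apply_ne _ _ _ h, Matrix.zero_apply]
  · ext k ⟨c, j⟩
    have h1 : (X * bigB A) k ⟨c, j⟩ = (X * A c) k j := rfl
    rw [h1, (hR.fr c).mul_B hX, mul_apply, mul_apply, Fintype.sum_sigma, Finset.sum_eq_single c]
    · refine Finset.sum_congr rfl fun i _ => ?_
      rw [blockDiagonal'_apply_eq]
      rfl
    · intro c' _ hc'
      refine Finset.sum_eq_zero fun i _ => ?_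
      rw [blockDiagonal'_apply_ne _ _ _ hc', mul_zero]
    · intro h; exact absurd (Finset.mem_univ _) h

theorem rho_big {X : Matrix ι ι ℂ} (hX : X ∈ H) : rho Ω (blockDiagonal' K) (bigB A) X
    = blockDiagonal' fun c => rho Ω (K c) (A c) X := by
  have hf := frame_big hsk hR
  have h1 : X * bigB A = bigB A * blockDiagonal' fun c => rho Ω (K c) (A c) X := by
    ext k ⟨c, j⟩
    have h1 : (X * bigB A) k ⟨c, j⟩ = (X * A c) k j := rfl
    rw [h1, (hR.fr c).mul_B hX, mul_apply, mul_apply, Fintype.sum_sigma, Finset.sum_eq_single c]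
    · refine Finset.sum_congr rfl fun i _ => ?_
      rw [blockDiagonal'_apply_eq]
      rfl
    · intro c' _ hc'
      refine Finset.sum_eq_zero fun i _ => ?_
      rw [blockDiagonal'_apply_ne _ _ _ hc', mul_zero]
    · intro h; exact absurd (Finset.mem_univ _) h
  rw [rho_apply, Matrix.mul_assoc, h1, ← Matrix.mul_assoc, hf.cof_mul, Matrix.one_mul]

end

/-- The block of a matrix. -/
def blk (P : Matrix (Σ c, κ c) (Σ c, κ c) ℂ) (c c' : C) : Matrix (κ c) (κ c') ℂ :=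
  of fun i j => P ⟨c, i⟩ ⟨c', j⟩

theorem blk_ext {P Q : Matrix (Σ c, κ c) (Σ c, κ c) ℂ} (h : ∀ c c', blk P c c' = blk Q c c') :
    P = Q := by
  ext ⟨c, i⟩ ⟨c', j⟩
  exact congrFun (congrFun (h c c') i) j

theorem blk_mul_bD (P : Matrix (Σ c, κ c) (Σ c, κ c) ℂ) (D : ∀ c, Matrix (κ c) (κ c) ℂ)
    (c c' : C) : blk (P * blockDiagonal' D) c c' = blk P c c' * D c' := by
  ext i j
  change (P * blockDiagonal' D) ⟨c, i⟩ ⟨c', j⟩ = _
  rw [mul_apply, mul_apply, Fintype.sum_sigma, Finset.sum_eq_single c']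
  · refine Finset.sum_congr rfl fun k _ => ?_
    rw [blockDiagonal'_apply_eq]
    rfl
  · intro c'' _ hc
    refine Finset.sum_eq_zero fun k _ => ?_
    rw [blockDiagonal'_apply_ne _ _ _ hc, mul_zero]
  · intro h; exact absurd (Finset.mem_univ _) h

theorem blk_bD_mul (P : Matrix (Σ c, κ c) (Σ c, κ c) ℂ) (D : ∀ c, Matrix (κ c) (κ c) ℂ)
    (c c' : C) : blk (blockDiagonal' D * P) c c' = D c * blk P c c' := by
  ext i j
  change (blockDiagonal' D * P) ⟨c, i⟩ ⟨c', j⟩ = _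
  rw [mul_apply, mul_apply, Fintype.sum_sigma, Finset.sum_eq_single c]
  · refine Finset.sum_congr rfl fun k _ => ?_
    rw [blockDiagonal'_apply_eq]
    rfl
  · intro c'' _ hc
    refine Finset.sum_eq_zero fun k _ => ?_
    rw [blockDiagonal'_apply_ne _ _ _ (Ne.symm hc), zero_mul]
  · intro h; exact absurd (Finset.mem_univ _) h

theorem blk_bD (D : ∀ c, Matrix (κ c) (κ c) ℂ) (c : C) : blk (blockDiagonal' D) c c = D c := by
  ext i j
  change blockDiagonal' D ⟨c, i⟩ ⟨c, j⟩ = _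
  rw [blockDiagonal'_apply_eq]

theorem blk_bD_ne (D : ∀ c, Matrix (κ c) (κ c) ℂ) {c c' : C} (h : c ≠ c') :
    blk (blockDiagonal' D) c c' = 0 := by
  ext i j
  change blockDiagonal' D ⟨c, i⟩ ⟨c', j⟩ = _
  rw [blockDiagonal'_apply_ne _ _ _ h, Matrix.zero_apply]

/-- The Lie algebra of the sum. -/
def bigH (Ω : Matrix ι ι ℂ) (H : Submodule ℂ (Matrix ι ι ℂ)) (K : ∀ c, Matrix (κ c) (κ c) ℂ)
    (A : ∀ c, Matrix ι (κ c) ℂ) : Submodule ℂ (Matrix (Σ c, κ c) (Σ c, κ c) ℂ) :=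
  H.map (rho Ω (blockDiagonal' K) (bigB A))

/-- **The system of the sum.** -/
theorem sub_sys (hS : SysW Ω H) (hR : Reps Ω H K A) : Sys (blockDiagonal' K) (bigH Ω H K A) := by
  have hf := frame_big hS.sk hR
  have hnd : ∀ v, blockDiagonal' K *ᵥ v = 0 → v = 0 := by
    intro v hv
    have h1 : (blockDiagonal' K * blockDiagonal' K) *ᵥ v = 0 := by
      rw [← mulVec_mulVec, hv, mulVec_zero]
    rw [hf.ksq, neg_mulVec, one_mulVec, neg_eq_zero] at h1
    exact h1
  have hbr : ∀ X ∈ bigH Ω H K A, ∀ Y ∈ bigH Ω H K A, X * Y - Y * X ∈ bigH Ω H K A := by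
    rintro _ ⟨X, hX, rfl⟩ _ ⟨Y, hY, rfl⟩
    exact ⟨_, hS.br X hX Y hY, hf.rho_bracket hX hY⟩
  have hsk : ∀ X ∈ bigH Ω H K A, Xᵀ * blockDiagonal' K = -(blockDiagonal' K * X) := by
    rintro _ ⟨X, hX, rfl⟩
    exact fr_sk hS.sk hf hX
  have hsy : ∀ P, (∀ X ∈ bigH Ω H K A, P * X = X * P) →
      Pᵀ * blockDiagonal' K = blockDiagonal' K * P := by
    intro P hP
    have h1 : ∀ X ∈ H, ∀ c c', rho Ω (K c) (A c) X * blk P c c'
        = blk P c c' * rho Ω (K c') (A c') X := by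
      intro X hX c c'
      have h2 := hP _ ⟨X, hX, rfl⟩
      rw [rho_big hS.sk hR hX] at h2
      have h3 := congrArg (fun Z => blk Z c c') h2
      simp only [blk_mul_bD, blk_bD_mul] at h3
      exact h3.symm
    have h2 : ∀ c, ∃ z : ℂ, blk P c c = z • (1 : Matrix (κ c) (κ c) ℂ) := by
      intro c
      refine irr_scalar (R := {ρ | ∃ X ∈ H, ρ = rho Ω (K c) (A c) X}) (fun W hW => ?_) ?_
      · exact hR.irr c W fun X hX => hW _ ⟨X, hX, rfl⟩
      · rintro _ ⟨X, hX, rfl⟩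
        exact (h1 X hX c c).symm
    choose z hz using h2
    have h3 : P = blockDiagonal' fun c => z c • (1 : Matrix (κ c) (κ c) ℂ) := by
      refine blk_ext fun c c' => ?_
      by_cases h : c = c'
      · subst h
        rw [blk_bD, hz]
      · rw [blk_bD_ne _ h]
        exact hR.un c c' h _ fun X hX => h1 X hX c c'
    rw [h3, blockDiagonal'_transpose, ← blockDiagonal'_mul, ← blockDiagonal'_mul]
    congr 1
    funext c
    rw [transpose_smul, transpose_one, smul_mul_assoc, mul_smul_comm, Matrix.one_mul,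
      Matrix.mul_one]
  have hproj : ∀ Y : Submodule ℂ ((Σ c, κ c) → ℂ), (∀ X ∈ bigH Ω H K A, ∀ v ∈ Y, X *ᵥ v ∈ Y) →
      ∃ P : Matrix (Σ c, κ c) (Σ c, κ c) ℂ, (∀ X ∈ bigH Ω H K A, P * X = X * P) ∧
        (∀ v, P *ᵥ v ∈ Y) ∧ ∀ v ∈ Y, P *ᵥ v = v := by
    intro Y hY
    obtain ⟨P, hP, hP1, hP2⟩ := hS.proj (Y.map (bigB A).mulVecLin) (by
      rintro X hX _ ⟨v, hv, rfl⟩
      refine ⟨rho Ω (blockDiagonal' K) (bigB A) X *ᵥ v, hY _ ⟨X, hX, rfl⟩ v hv, ?_⟩
      rw [mulVecLin_apply, mulVecLin_apply, mulVec_mulVec, mulVec_mulVec, hf.mul_B hX])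
    refine ⟨cof Ω (blockDiagonal' K) (bigB A) * P * bigB A, ?_, fun v => ?_, fun v hv => ?_⟩
    · rintro _ ⟨X, hX, rfl⟩
      exact (fr_int hS.sk hf hf hP hX).symm
    · obtain ⟨y, hy, hy'⟩ := hP1 (bigB A *ᵥ v)
      rw [mulVecLin_apply] at hy'
      rw [← mulVec_mulVec, ← mulVec_mulVec, ← hy', mulVec_mulVec, hf.cof_mul, one_mulVec]
      exact hy
    · rw [← mulVec_mulVec, ← mulVec_mulVec, hP2 (bigB A *ᵥ v) ⟨v, hv, rfl⟩, mulVec_mulVec,
        hf.cof_mul, one_mulVec]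
  exact ⟨hf.ktr, hnd, hbr, hsk, fun X hX h => radical_zero hnd hbr hsk hsy hproj hX h, hsy, hproj⟩

/-- The projection to a component. -/
def prc (κ : C → Type) [∀ c, Fintype (κ c)] [∀ c, DecidableEq (κ c)] (c : C) :
    Matrix (Σ c, κ c) (Σ c, κ c) ℂ :=
  blockDiagonal' fun c' => (if c' = c then 1 else 0 : Matrix (κ c') (κ c') ℂ)

theorem prc_idem (c : C) : prc κ c * prc κ c = prc κ c := by
  unfold prc
  rw [← blockDiagonal'_mul]
  congr 1
  funext c'
  split <;> simp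

theorem prc_cm (hsk : ∀ X ∈ H, Xᵀ * Ω = -(Ω * X)) (hR : Reps Ω H K A) (c : C) :
    Cm (bigH Ω H K A) (prc κ c) := by
  rintro _ ⟨X, hX, rfl⟩
  rw [rho_big hsk hR hX]
  unfold prc
  rw [← blockDiagonal'_mul, ← blockDiagonal'_mul]
  congr 1
  funext c'
  split <;> simp

theorem sum_prc : ∑ c, prc κ c = 1 := by
  refine blk_ext fun c c' => ?_
  ext i j
  change (∑ d, prc κ d) ⟨c, i⟩ ⟨c', j⟩ = (1 : Matrix (Σ c, κ c) (Σ c, κ c) ℂ) ⟨c, i⟩ ⟨c', j⟩
  rw [Matrix.sum_apply]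
  by_cases h : c = c'
  · subst h
    rw [Finset.sum_eq_single c]
    · unfold prc
      rw [blockDiagonal'_apply_eq, if_pos rfl, Matrix.one_apply, Matrix.one_apply]
      simp
    · intro d _ hd
      unfold prc
      rw [blockDiagonal'_apply_eq, if_neg (Ne.symm hd), Matrix.zero_apply]
    · intro h; exact absurd (Finset.mem_univ _) h
  · rw [Finset.sum_eq_zero]
    · rw [Matrix.one_apply_ne]
      intro h1
      exact h (Sigma.mk.inj h1).1
    · intro d _
      unfold prc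
      rw [blockDiagonal'_apply_ne _ _ _ h]

theorem prc_mulVec (c : C) (v : (Σ c, κ c) → ℂ) (c' : C) (i : κ c') :
    (prc κ c *ᵥ v) ⟨c', i⟩ = if c' = c then v ⟨c', i⟩ else 0 := by
  unfold prc
  rw [mulVec, dotProduct, Fintype.sum_sigma, Finset.sum_eq_single c']
  · by_cases h : c' = c
    · rw [if_pos h, Finset.sum_eq_single i]
      · rw [blockDiagonal'_apply_eq, if_pos h, Matrix.one_apply_eq, one_mul]
      · intro j _ hj
        rw [blockDiagonal'_apply_eq, if_pos h, Matrix.one_apply_ne (Ne.symm hj), zero_mul]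
      · intro h; exact absurd (Finset.mem_univ _) h
    · rw [if_neg h]
      refine Finset.sum_eq_zero fun j _ => ?_
      rw [blockDiagonal'_apply_eq, if_neg h, Matrix.zero_apply, zero_mul]
  · intro d _ hd
    refine Finset.sum_eq_zero fun j _ => ?_
    rw [blockDiagonal'_apply_ne _ _ _ (Ne.symm hd), zero_mul]
  · intro h; exact absurd (Finset.mem_univ _) h

/-- The inclusion of a component. -/
def inc (κ : C → Type) [∀ c, DecidableEq (κ c)] (c : C) :
    (κ c → ℂ) →ₗ[ℂ] ((Σ c, κ c) → ℂ) where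
  toFun u := fun p => if h : p.1 = c then u (h ▸ p.2) else 0
  map_add' u v := by
    funext p
    by_cases h : p.1 = c
    · simp only [Pi.add_apply, dif_pos h]
    · simp only [Pi.add_apply, dif_neg h, add_zero]
  map_smul' z u := by
    funext p
    by_cases h : p.1 = c
    · simp only [Pi.smul_apply, dif_pos h, RingHom.id_apply]
    · simp only [Pi.smul_apply, dif_neg h, RingHom.id_apply, smul_zero]

theorem inc_same (c : C) (u : κ c → ℂ) (i : κ c) : inc κ c u ⟨c, i⟩ = u i := by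
  change (if h : c = c then u (h ▸ i) else 0) = u i
  rw [dif_pos rfl]

theorem inc_ne {c c' : C} (h : c' ≠ c) (u : κ c → ℂ) (i : κ c') : inc κ c u ⟨c', i⟩ = 0 := by
  change (if h : c' = c then u (h ▸ i) else 0) = 0
  rw [dif_neg h]

theorem inc_inj (c : C) : Function.Injective (inc κ c) := by
  intro u v h
  funext i
  have h1 := congrFun h ⟨c, i⟩
  rwa [inc_same, inc_same] at h1

theorem bD_inc (D : ∀ c, Matrix (κ c) (κ c) ℂ) (c : C) (u : κ c → ℂ) :
    blockDiagonal' D *ᵥ inc κ c u = inc κ c (D c *ᵥ u) := by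
  funext ⟨c', i⟩
  rw [mulVec, dotProduct, Fintype.sum_sigma, Finset.sum_eq_single c']
  · by_cases h : c' = c
    · subst h
      rw [inc_same]
      refine Finset.sum_congr rfl fun j _ => ?_
      rw [blockDiagonal'_apply_eq, inc_same]
    · rw [inc_ne h]
      refine Finset.sum_eq_zero fun j _ => ?_
      rw [inc_ne h, mul_zero]
  · intro d _ hd
    refine Finset.sum_eq_zero fun j _ => ?_
    rw [blockDiagonal'_apply_ne _ _ _ (Ne.symm hd), zero_mul]
  · intro h; exact absurd (Finset.mem_univ _) h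

theorem mem_range_inc {c : C} {v : (Σ c, κ c) → ℂ} (h : prc κ c *ᵥ v = v) :
    v ∈ LinearMap.range (inc κ c) := by
  refine ⟨fun i => v ⟨c, i⟩, ?_⟩
  funext ⟨c', i⟩
  by_cases hc : c' = c
  · subst hc
    rw [inc_same]
  · rw [inc_ne hc, ← h, prc_mulVec, if_neg hc]

/-- The blocks of the sum. -/
theorem big_block (hS : SysW Ω H) (hR : Reps Ω H K A) {Y : Submodule ℂ ((Σ c, κ c) → ℂ)}
    (hY : Block (bigH Ω H K A) Y) : ∃ c, Y = LinearMap.range (inc κ c) := by
  have hS' := sub_sys hS hR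
  obtain ⟨y, hy, hy0⟩ := Y.ne_bot_iff.mp hY.ne
  have h1 : ∀ c, ∃ z : ℂ, ∀ v ∈ Y, prc κ c *ᵥ v = z • v := fun c =>
    hY.scalar hS' (prc_cm hS.sk hR c)
  choose z hz using h1
  have h2 : ∃ c, z c ≠ 0 := by
    by_contra hcon
    push Not at hcon
    apply hy0
    have h3 : (∑ c, prc κ c) *ᵥ y = y := by rw [sum_prc, one_mulVec]
    rw [← h3, sum_mulVec]
    refine Finset.sum_eq_zero fun c _ => ?_
    rw [hz c y hy, hcon c, zero_smul]
  obtain ⟨c, hc⟩ := h2
  have h3 : z c = 1 := by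
    have h4 : (prc κ c * prc κ c) *ᵥ y = prc κ c *ᵥ y := by rw [prc_idem]
    rw [← mulVec_mulVec, hz c y hy, mulVec_smul, hz c y hy, smul_smul] at h4
    have h5 : z c * z c = z c := smul_left_injective ℂ hy0 h4
    exact mul_left_cancel₀ hc (by rw [h5, mul_one])
  have hle : Y ≤ LinearMap.range (inc κ c) := by
    intro v hv
    refine mem_range_inc ?_
    rw [hz c v hv, h3, one_smul]
  refine ⟨c, ?_⟩
  rcases hR.irr c (Y.comap (inc κ c)) (by
    intro X hX w hw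
    rw [Submodule.mem_comap] at hw ⊢
    have h4 := hY.st _ ⟨X, hX, rfl⟩ _ hw
    rw [rho_big hS.sk hR hX, bD_inc] at h4
    exact h4) with h4 | h4
  · exfalso
    obtain ⟨u, hu⟩ := hle hy
    have h5 : u ∈ Y.comap (inc κ c) := by
      rw [Submodule.mem_comap, hu]; exact hy
    rw [h4, Submodule.mem_bot] at h5
    apply hy0
    rw [← hu, h5, map_zero]
  · apply le_antisymm hle
    rintro _ ⟨u, rfl⟩
    have h5 : u ∈ Y.comap (inc κ c) := by rw [h4]; trivial
    exact h5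

/-- **Splitting of the Lie algebra**: if all irreducible subspaces are of dimension two, or all of
dimension four, then the Lie algebra is the sum of its parts. -/
theorem reps_split (hS : SysW Ω H) (hR : Reps Ω H K A) {m : ℕ} (hm : m = 2 ∨ m = 4)
    (hc : ∀ c, Fintype.card (κ c) = m) {X : Matrix ι ι ℂ} (hX : X ∈ H) (c : C) :
    ∃ X' ∈ H, ∀ c', rho Ω (K c') (A c') X' = if c' = c then rho Ω (K c') (A c') X else 0 := by
  have hall : AllDim (bigH Ω H K A) m := by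
    intro Y hY
    obtain ⟨c, rfl⟩ := big_block hS hR hY
    rw [LinearMap.finrank_range_of_inj (inc_inj c), Module.finrank_fintype_fun_eq_card, hc]
  obtain ⟨X', hX', h1⟩ := split_ideal (sub_sys hS hR) hm hall (prc_cm hS.sk hR c) (prc_idem c)
    _ ⟨X, hX, rfl⟩
  refine ⟨X', hX', fun c' => ?_⟩
  rw [rho_big hS.sk hR hX, rho_big hS.sk hR hX'] at h1
  have h2 := congrArg (fun Z => blk Z c' c') h1
  simp only [blk_bD] at h2
  rw [h2]
  unfold prc
  rw [blk_mul_bD, blk_bD]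
  split <;> simp

end Pool.Agent.V5helper88.KK
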