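import Pool.Agent.V5helper88.K.K4

/-!
The eigenspaces of a symmetric element of the commutant which generates its own commutant.
-/

set_option autoImplicit false

namespace Pool.Agent.V5helper88.KK

open Matrix Module Function Pool.Agent.V5helper88.HR Polynomial

variable {ι : Type} [Fintype ι] [DecidableEq ι] {Ω : Matrix ι ι ℂ}
  {H : Submodule ℂ (Matrix ι ι ℂ)} {P : Matrix ι ι ℂ} {L : Finset ℂ}

/-- The eigenspace. -/
def Yz (P : Matrix ι ι ℂ) (z : ℂ) : Submodule ℂ (ι → ℂ) where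
  carrier := {v | P *ᵥ v = z • v}
  zero_mem' := by
    change P *ᵥ 0 = z • 0
    rw [mulVec_zero, smul_zero]
  add_mem' := fun {v w} hv hw => by
    change P *ᵥ (v + w) = z • (v + w)
    rw [mulVec_add, smul_add, hv, hw]
  smul_mem' := fun c v hv => by
    change P *ᵥ (c • v) = z • c • v
    rw [mulVec_smul, hv, smul_comm]

theorem mem_Yz {z : ℂ} {v : ι → ℂ} : v ∈ Yz P z ↔ P *ᵥ v = z • v := Iff.rfl

/-- A symmetric diagonalizable element of the commutant, whose commutant acts by scalars on the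
eigenspaces. -/
structure Spec (Ω : Matrix ι ι ℂ) (H : Submodule ℂ (Matrix ι ι ℂ)) (P : Matrix ι ι ℂ)
    (L : Finset ℂ) : Prop where
  cm : Cm H P
  sy : Pᵀ * Ω = Ω * P
  kill : aeval P (∏ z ∈ L, (X - C z)) = 0
  scal : ∀ Q, Cm H Q → Q * P = P * Q → ∀ z ∈ L, ∃ c : ℂ, ∀ v ∈ Yz P z, Q *ᵥ v = c • v
  ne : ∀ z ∈ L, Yz P z ≠ ⊥

/-- The projection to the eigenspace. -/
noncomputable def ez (P : Matrix ι ι ℂ) (L : Finset ℂ) (z : ℂ) : Matrix ι ι ℂ :=
  aeval P (Lagrange.basis L id z)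

theorem cm_aeval (hP : Cm H P) (f : ℂ[X]) : Cm H (aeval P f) := by
  intro X hX
  have h1 := Pool.Agent.V5helper88.HR.comm_aeval (V := X) (Y := P) (hP X hX).symm f
  exact h1.symm

theorem sy_aeval (hP : Pᵀ * Ω = Ω * P) (f : ℂ[X]) : (aeval P f)ᵀ * Ω = Ω * aeval P f := by
  have hp : ∀ n : ℕ, (P ^ n)ᵀ * Ω = Ω * P ^ n := by
    intro n
    induction n with
    | zero => rw [pow_zero, transpose_one, one_mul, mul_one]
    | succ n ih =>
      rw [pow_succ, transpose_mul, mul_assoc, ih, ← mul_assoc, hP, mul_assoc, ← pow_succ',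
        ← pow_succ]
  induction f using Polynomial.induction_on' with
  | add p q hp hq => rw [map_add, transpose_add, add_mul, mul_add, hp, hq]
  | monomial n a =>
    rw [Polynomial.aeval_monomial, Algebra.algebraMap_eq_smul_one, smul_mul_assoc, one_mul,
      transpose_smul, smul_mul_assoc, mul_smul_comm, hp]

theorem aeval_vec (f : ℂ[X]) {z : ℂ} {v : ι → ℂ} (hv : v ∈ Yz P z) :
    aeval P f *ᵥ v = f.eval z • v := by
  have hp : ∀ n : ℕ, P ^ n *ᵥ v = z ^ n • v := by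
    intro n
    induction n with
    | zero => rw [pow_zero, pow_zero, one_mulVec, one_smul]
    | succ n ih =>
      rw [pow_succ, ← mulVec_mulVec, mem_Yz.1 hv, mulVec_smul, ih, smul_smul, pow_succ, mul_comm]
  induction f using Polynomial.induction_on' with
  | add p q hp hq => rw [map_add, add_mulVec, hp, hq, eval_add, add_smul]
  | monomial n a =>
    rw [Polynomial.aeval_monomial, Algebra.algebraMap_eq_smul_one, smul_mul_assoc, one_mul,
      smul_mulVec, hp, eval_monomial, smul_smul]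

namespace Spec

variable (hP : Spec Ω H P L)

include hP

theorem e_cm (z : ℂ) : Cm H (ez P L z) := cm_aeval hP.cm _

theorem e_sy (z : ℂ) : (ez P L z)ᵀ * Ω = Ω * ez P L z := sy_aeval hP.sy _

theorem P_e {z : ℂ} (hz : z ∈ L) : P * ez P L z = z • ez P L z := by
  have h1 : (X - C z) * Lagrange.basis L id z
      = (∏ j ∈ L.erase z, C (z - j)⁻¹) * ∏ j ∈ L, (X - C j) := by
    unfold Lagrange.basis Lagrange.basisDivisor
    rw [Finset.prod_mul_distrib, ← Finset.mul_prod_erase L _ hz]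
    simp only [id_eq]
    ring
  have h2 := congrArg (aeval P) h1
  rw [map_mul, map_mul, hP.kill, mul_zero, map_sub, aeval_X, aeval_C, sub_mul, sub_eq_zero] at h2
  unfold ez
  rw [h2, Algebra.algebraMap_eq_smul_one, smul_mul_assoc, one_mul]

theorem e_mem {z : ℂ} (hz : z ∈ L) (v : ι → ℂ) : ez P L z *ᵥ v ∈ Yz P z := by
  rw [mem_Yz, mulVec_mulVec, hP.P_e hz, smul_mulVec]

theorem e_fix {z : ℂ} (hz : z ∈ L) {v : ι → ℂ} (hv : v ∈ Yz P z) : ez P L z *ᵥ v = v := by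
  unfold ez
  rw [aeval_vec _ hv]
  have h1 := Lagrange.eval_basis_self (s := L) (v := (id : ℂ → ℂ)) (Set.injOn_id _) hz
  rw [id] at h1
  rw [h1, one_smul]

theorem e_idem {z : ℂ} (hz : z ∈ L) : ez P L z * ez P L z = ez P L z := by
  apply (toLin').injective
  refine LinearMap.ext fun v => ?_
  rw [toLin'_apply, toLin'_apply, ← mulVec_mulVec, hP.e_fix hz (hP.e_mem hz v)]

theorem sum_e [Nonempty ι] : ∑ z ∈ L, ez P L z = 1 := by
  have hL : L.Nonempty := by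
    by_contra hcon
    rw [Finset.not_nonempty_iff_eq_empty] at hcon
    have h1 := hP.kill
    rw [hcon, Finset.prod_empty, map_one] at h1
    exact one_ne_zero h1
  unfold ez
  rw [← map_sum, Lagrange.sum_basis (Set.injOn_id _) hL, map_one]

theorem e_ne {z : ℂ} (hz : z ∈ L) : ez P L z ≠ 0 := by
  intro h
  apply hP.ne z hz
  rw [Submodule.eq_bot_iff]
  intro v hv
  rw [← hP.e_fix hz hv, h, zero_mulVec]

theorem Y_st (z : ℂ) : Stable H (Yz P z) := by
  intro X hX v hv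
  rw [mem_Yz] at hv ⊢
  rw [mulVec_mulVec, hP.cm X hX, ← mulVec_mulVec, hv, mulVec_smul]

/-- The eigenspaces are irreducible. -/
theorem Y_irr (hS : SysW Ω H) {z : ℂ} (hz : z ∈ L) {W : Submodule ℂ (ι → ℂ)} (hW : Stable H W)
    (hWY : W ≤ Yz P z) : W = ⊥ ∨ W = Yz P z := by
  by_cases h0 : W = ⊥
  · exact Or.inl h0
  refine Or.inr (le_antisymm hWY fun v hv => ?_)
  obtain ⟨Q, hQ, hQ1, hQ2⟩ := hS.proj W hW
  have h1 : ez P L z * Q * ez P L z * P = P * (ez P L z * Q * ez P L z) := by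
    have h2 : ez P L z * P = z • ez P L z := by
      rw [← hP.P_e hz]
      exact (comm_aeval (V := P) (Y := P) rfl _).symm
    rw [mul_assoc, h2, ← mul_assoc P, ← mul_assoc P, hP.P_e hz, mul_smul_comm, smul_mul_assoc,
      smul_mul_assoc]
  obtain ⟨c, hc⟩ := hP.scal _ (((hP.e_cm z).mul hQ).mul (hP.e_cm z)) h1 z hz
  have h3 : ∀ u ∈ Yz P z, (ez P L z * Q * ez P L z) *ᵥ u = Q *ᵥ u := by
    intro u hu
    rw [← mulVec_mulVec, ← mulVec_mulVec, hP.e_fix hz hu, hP.e_fix hz (hWY (hQ1 u))]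
  obtain ⟨w, hw, hw0⟩ := W.ne_bot_iff.mp h0
  have h4 : c = 1 := by
    have h5 := hc w (hWY hw)
    rw [h3 w (hWY hw), hQ2 w hw] at h5
    have h6 : (1 : ℂ) • w = c • w := by rw [one_smul]; exact h5
    exact (smul_left_injective ℂ hw0 h6).symm
  have h5 := hc v hv
  rw [h3 v hv, h4, one_smul] at h5
  rw [← h5]
  exact hQ1 v

/-- The eigenspaces are nondegenerate. -/
theorem Y_nd (hS : SysW Ω H) [Nonempty ι] {z : ℂ} {v : ι → ℂ} (hv : v ∈ Yz P z)
    (h : ∀ w ∈ Yz P z, bw Ω v w = 0) : v = 0 := by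
  apply bw_nd hS.alt hS.nd
  intro w
  have h1 : w = ∑ z' ∈ L, ez P L z' *ᵥ w := by
    rw [← sum_mulVec, hP.sum_e, one_mulVec]
  have h2 : bw Ω v w = ∑ z' ∈ L, bw Ω v (ez P L z' *ᵥ w) := by
    conv_lhs => rw [h1]
    unfold bw
    rw [mulVec_sum, dotProduct_sum]
  rw [h2]
  refine Finset.sum_eq_zero fun z' hz' => ?_
  by_cases hzz : z' = z
  · subst hzz
    exact h _ (hP.e_mem hz' w)
  · have h3 : bw Ω (P *ᵥ v) (ez P L z' *ᵥ w) = bw Ω v (P *ᵥ (ez P L z' *ᵥ w)) := by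
      rw [bw_mulVec_left, bw_mulVec_right, hP.sy]
    rw [mem_Yz.1 hv, mem_Yz.1 (hP.e_mem hz' w), bw_smul_left, bw_smul_right] at h3
    have h4 : (z' - z) * bw Ω v (ez P L z' *ᵥ w) = 0 := by linear_combination -h3
    exact (mul_eq_zero.mp h4).resolve_left (sub_ne_zero.mpr hzz)

/-- Products of nonzero homomorphisms of irreducible subspaces. -/
theorem prod_ne (hS : SysW Ω H) {z : ℂ} (hz : z ∈ L) {S R : Matrix ι ι ℂ} (hSc : Cm H S)
    (hRc : Cm H R) (hS0 : S * ez P L z ≠ 0) (hR0 : ez P L z * R ≠ 0) :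
    S * (ez P L z * R) ≠ 0 := by
  intro h
  let W : Submodule ℂ (ι → ℂ) := Yz P z ⊓ LinearMap.ker (toLin' S)
  have hmem : ∀ w, w ∈ W ↔ w ∈ Yz P z ∧ S *ᵥ w = 0 := fun w => by
    simp only [W, Submodule.mem_inf, LinearMap.mem_ker, toLin'_apply]
  have hst : Stable H W := by
    intro X hX w hw
    rw [hmem] at hw ⊢
    refine ⟨hP.Y_st z X hX w hw.1, ?_⟩
    rw [mulVec_mulVec, hSc X hX, ← mulVec_mulVec, hw.2, mulVec_zero]
  rcases hP.Y_irr hS hz hst inf_le_left with h1 | h1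
  · apply hR0
    apply (toLin').injective
    refine LinearMap.ext fun v => ?_
    rw [toLin'_apply, map_zero, LinearMap.zero_apply]
    have h2 : (ez P L z * R) *ᵥ v ∈ W := by
      rw [hmem]
      refine ⟨?_, by rw [mulVec_mulVec, h, zero_mulVec]⟩
      rw [← mulVec_mulVec]
      exact hP.e_mem hz _
    rw [h1, Submodule.mem_bot] at h2
    exact h2
  · apply hS0
    apply (toLin').injective
    refine LinearMap.ext fun v => ?_
    rw [toLin'_apply, map_zero, LinearMap.zero_apply, ← mulVec_mulVec]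
    have h2 : ez P L z *ᵥ v ∈ W := by rw [h1]; exact hP.e_mem hz v
    exact ((hmem _).1 h2).2

end Spec

/-- The adjoint. -/
theorem exists_adj (hS : SysW Ω H) {T : Matrix ι ι ℂ} (hT : Cm H T) :
    ∃ T', Cm H T' ∧ Ω * T' = Tᵀ * Ω := by
  have hdet : IsUnit Ω.det := by
    rw [isUnit_iff_ne_zero]
    intro h0
    obtain ⟨v, hv0, hv⟩ := Matrix.exists_mulVec_eq_zero_iff.mpr h0
    exact hv0 (hS.nd v hv)
  have h1 : Ω * (Ω⁻¹ * Tᵀ * Ω) = Tᵀ * Ω := by
    rw [← mul_assoc, ← mul_assoc, Matrix.mul_nonsing_inv _ hdet, one_mul]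
  refine ⟨Ω⁻¹ * Tᵀ * Ω, fun X hX => ?_, h1⟩
  apply left_inj hS.nd
  have e1 : Ω * (Ω⁻¹ * Tᵀ * Ω * X) = -((X * T)ᵀ * Ω) := by
    have h2 : Ω * X = -(Xᵀ * Ω) := by rw [hS.sk X hX, neg_neg]
    rw [← mul_assoc, h1, mul_assoc, h2, transpose_mul, mul_neg, mul_assoc]
  have e2 : Ω * (X * (Ω⁻¹ * Tᵀ * Ω)) = -((T * X)ᵀ * Ω) := by
    have h2 : Ω * X = -(Xᵀ * Ω) := by rw [hS.sk X hX, neg_neg]
    rw [← mul_assoc, h2, neg_mul, mul_assoc Xᵀ, h1, transpose_mul, mul_assoc]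
  rw [e1, e2, hT X hX]

/-- Two eigenvalues are linked if the eigenspaces are isomorphic. -/
def Link (H : Submodule ℂ (Matrix ι ι ℂ)) (P : Matrix ι ι ℂ) (L : Finset ℂ) (z w : ℂ) : Prop :=
  ∃ T, Cm H T ∧ ez P L w * T * ez P L z ≠ 0

section link

variable (hP : Spec Ω H P L)

include hP

theorem link_refl {z : ℂ} (hz : z ∈ L) : Link H P L z z := by
  refine ⟨1, Cm.one, ?_⟩
  rw [mul_one, hP.e_idem hz]
  exact hP.e_ne hz

theorem link_symm (hS : SysW Ω H) {z w : ℂ} (h : Link H P L z w) : Link H P L w z := by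
  obtain ⟨T, hT, hne⟩ := h
  obtain ⟨T', hT', h1⟩ := exists_adj hS hT
  refine ⟨T', hT', fun h0 => hne ?_⟩
  have h2 : (ez P L w * T * ez P L z)ᵀ * Ω = Ω * (ez P L z * T' * ez P L w) := by
    have h3 : (ez P L w * T * ez P L z)ᵀ * Ω
        = (ez P L z)ᵀ * (Tᵀ * ((ez P L w)ᵀ * Ω)) := by
      rw [transpose_mul, transpose_mul]; simp only [mul_assoc]
    rw [h3, hP.e_sy w, ← mul_assoc Tᵀ, ← h1, mul_assoc Ω, ← mul_assoc (ez P L z)ᵀ, hP.e_sy z]
    simp only [mul_assoc]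
  rw [h0, mul_zero] at h2
  have h3 := congrArg transpose h2
  rw [transpose_mul, transpose_transpose, hS.alt, transpose_zero, neg_mul, neg_eq_zero] at h3
  exact left_inj hS.nd (h3.trans (mul_zero _).symm)

theorem link_trans (hS : SysW Ω H) {z w u : ℂ} (hw : w ∈ L) (h1 : Link H P L z w)
    (h2 : Link H P L w u) : Link H P L z u := by
  obtain ⟨T, hT, hne⟩ := h1
  obtain ⟨S, hSc, hne'⟩ := h2
  refine ⟨S * ez P L w * T, (hSc.mul (hP.e_cm w)).mul hT, ?_⟩
  have h3 := hP.prod_ne hS hw (S := ez P L u * S) (R := T * ez P L z) ((hP.e_cm u).mul hSc)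
    (hT.mul (hP.e_cm z)) hne' (by rw [← mul_assoc]; exact hne)
  intro h0
  apply h3
  rw [← h0]
  simp only [mul_assoc]

end link

/-- **Coherent frames.** -/
theorem exists_coh (hS : SysW Ω H) (hP : Spec Ω H P L) [Nonempty ι] {κ : Type} [Fintype κ]
    [DecidableEq κ] {K : Matrix κ κ ℂ} {r z : ℂ} (hr : r ∈ L) (hz : z ∈ L)
    (hl : Link H P L r z) {A : Matrix ι κ ℂ} (hA : Frame Ω H K A)
    (hAr : LinearMap.range A.mulVecLin = Yz P r) :
    ∃ B : Matrix ι κ ℂ, Frame Ω H K B ∧ LinearMap.range B.mulVecLin = Yz P z ∧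
      ∀ X ∈ H, rho Ω K B X = rho Ω K A X := by
  obtain ⟨T, hT, hne⟩ := hl
  have hirrA : ∀ W : Submodule ℂ (κ → ℂ), (∀ X ∈ H, ∀ w ∈ W, rho Ω K A X *ᵥ w ∈ W) →
      W = ⊥ ∨ W = ⊤ := by
    intro W hW
    have h1 : Stable H (W.map A.mulVecLin) := by
      rintro X hX _ ⟨w, hw, rfl⟩
      refine ⟨rho Ω K A X *ᵥ w, hW X hX w hw, ?_⟩
      rw [mulVecLin_apply, mulVecLin_apply, mulVec_mulVec, mulVec_mulVec, hA.mul_B hX]
    rcases hP.Y_irr hS hr h1 (by rw [← hAr]; exact LinearMap.map_le_range) with h2 | h2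
    · left
      rw [Submodule.eq_bot_iff]
      intro w hw
      have h3 : A.mulVecLin w ∈ W.map A.mulVecLin := ⟨w, hw, rfl⟩
      rw [h2, Submodule.mem_bot, mulVecLin_apply] at h3
      exact hA.B_inj (by rw [h3, mulVec_zero])
    · right
      rw [eq_top_iff]
      intro v _
      have h3 : A.mulVecLin v ∈ Yz P r := by rw [← hAr]; exact ⟨_, rfl⟩
      rw [← h2] at h3
      obtain ⟨w, hw, hw'⟩ := h3
      rw [mulVecLin_apply, mulVecLin_apply] at hw'
      rw [← hA.B_inj hw']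
      exact hw
  set B₀ : Matrix ι κ ℂ := ez P L z * T * A with hB₀
  have hXB : ∀ X ∈ H, X * B₀ = B₀ * rho Ω K A X := by
    intro X hX
    rw [hB₀, ← Matrix.mul_assoc, ← ((hP.e_cm z).mul hT) X hX, Matrix.mul_assoc, hA.mul_B hX,
      Matrix.mul_assoc]
    simp only [Matrix.mul_assoc]
  have hB₀Y : ∀ v, B₀ *ᵥ v ∈ Yz P z := by
    intro v
    rw [hB₀, Matrix.mul_assoc, ← mulVec_mulVec]
    exact hP.e_mem hz _
  have hB₀0 : B₀ ≠ 0 := by
    intro h0
    apply hne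
    apply (toLin').injective
    refine LinearMap.ext fun v => ?_
    rw [toLin'_apply, map_zero, LinearMap.zero_apply, ← mulVec_mulVec]
    have h1 := hP.e_mem hr v
    rw [← hAr] at h1
    obtain ⟨w, hw⟩ := h1
    rw [← hw, mulVecLin_apply, mulVec_mulVec, ← hB₀, h0, zero_mulVec]
  have hst : Stable H (LinearMap.range B₀.mulVecLin) := by
    rintro X hX _ ⟨w, rfl⟩
    refine ⟨rho Ω K A X *ᵥ w, ?_⟩
    rw [mulVecLin_apply, mulVecLin_apply, mulVec_mulVec, mulVec_mulVec, hXB X hX]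
  have hran : LinearMap.range B₀.mulVecLin = Yz P z := by
    rcases hP.Y_irr hS hz hst (by rintro _ ⟨w, rfl⟩; exact hB₀Y w) with h1 | h1
    · exfalso
      apply hB₀0
      ext i j
      have h2 : B₀ *ᵥ Pi.single j 1 ∈ LinearMap.range B₀.mulVecLin := ⟨_, rfl⟩
      rw [h1, Submodule.mem_bot] at h2
      have h3 := congrFun h2 i
      rwa [mulVec_single_one] at h3
    · exact h1
  -- the Gram matrix
  set G : Matrix κ κ ℂ := B₀ᵀ * Ω * B₀ with hG
  obtain ⟨ζ, hζ⟩ := irr_scalar (R := {ρ | ∃ X ∈ H, ρ = rho Ω K A X}) (P := K * G)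
    (fun W hW => hirrA W fun X hX => hW _ ⟨X, hX, rfl⟩) (by
      rintro _ ⟨X, hX, rfl⟩
      have h1 : (rho Ω K A X)ᵀ * G = -(G * rho Ω K A X) := by
        have h2 : (rho Ω K A X)ᵀ * G = (B₀ * rho Ω K A X)ᵀ * Ω * B₀ := by
          rw [hG, transpose_mul B₀]; simp only [Matrix.mul_assoc]
        have h3 : G * rho Ω K A X = B₀ᵀ * Ω * (B₀ * rho Ω K A X) := by
          rw [hG]; simp only [Matrix.mul_assoc]
        rw [h2, h3, ← hXB X hX, transpose_mul X, Matrix.mul_assoc B₀ᵀ, hS.sk X hX]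
        simp only [Matrix.neg_mul, Matrix.mul_neg, Matrix.mul_assoc]
      have h2 : G * rho Ω K A X = -((rho Ω K A X)ᵀ * G) := by rw [h1, neg_neg]
      rw [Matrix.mul_assoc, h2, Matrix.mul_neg, ← Matrix.mul_assoc,
        hA.K_tr (fr_sk hS.sk hA hX), Matrix.neg_mul, neg_neg, Matrix.mul_assoc])
  have hGK : G = (-ζ) • K := by
    have h1 : K * (K * G) = ζ • K := by rw [hζ, mul_smul_comm, Matrix.mul_one]
    rw [← Matrix.mul_assoc, hA.ksq, neg_one_mul] at h1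
    rw [neg_smul, ← h1, neg_neg]
  have hgr : ∀ v w : κ → ℂ, bw Ω (B₀ *ᵥ v) (B₀ *ᵥ w) = (-ζ) * bw K v w := by
    intro v w
    have h1 : bw Ω (B₀ *ᵥ v) (B₀ *ᵥ w) = bw G v w := by
      unfold bw
      have h1 : (B₀ *ᵥ v) = v ᵥ* B₀ᵀ := (vecMul_transpose B₀ v).symm
      rw [h1, mulVec_mulVec, ← dotProduct_mulVec, mulVec_mulVec, ← Matrix.mul_assoc, hG]
    rw [h1, hGK]
    unfold bw
    rw [smul_mulVec, dotProduct_smul, smul_eq_mul]
  have hζ0 : ζ ≠ 0 := by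
    intro h0
    obtain ⟨y, hy, hy0⟩ := (Yz P z).ne_bot_iff.mp (hP.ne z hz)
    apply hy0
    refine hP.Y_nd hS hy fun w hw => ?_
    rw [← hran] at hy hw
    obtain ⟨y', rfl⟩ := hy
    obtain ⟨w', rfl⟩ := hw
    rw [mulVecLin_apply, mulVecLin_apply, hgr, h0, neg_zero, zero_mul]
  obtain ⟨c, hc⟩ := IsAlgClosed.exists_pow_nat_eq (-ζ)⁻¹ (n := 2) (by norm_num)
  have hc0 : c ≠ 0 := by
    rintro rfl
    rw [zero_pow two_ne_zero] at hc
    exact inv_ne_zero (neg_ne_zero.mpr hζ0) hc.symm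
  have hf : Frame Ω H K (c • B₀) := by
    refine ⟨hA.ksq, hA.ktr, ?_, fun X hX => ⟨rho Ω K A X, ?_⟩⟩
    · rw [transpose_smul, Matrix.smul_mul, Matrix.smul_mul, Matrix.mul_smul, smul_smul, ← hG, hGK,
        smul_smul, ← pow_two, hc, inv_mul_cancel₀ (neg_ne_zero.mpr hζ0), one_smul]
    · rw [Matrix.mul_smul, hXB X hX, Matrix.smul_mul]
  refine ⟨c • B₀, hf, ?_, fun X hX => ?_⟩
  · rw [← hran]
    apply le_antisymm
    · rintro _ ⟨w, rfl⟩
      refine ⟨c • w, ?_⟩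
      rw [mulVecLin_apply, mulVecLin_apply, smul_mulVec, mulVec_smul]
    · rintro _ ⟨w, rfl⟩
      refine ⟨c⁻¹ • w, ?_⟩
      rw [mulVecLin_apply, mulVecLin_apply, smul_mulVec, mulVec_smul, smul_smul,
        mul_inv_cancel₀ hc0, one_smul]
  · have h1 : X * (c • B₀) = (c • B₀) * rho Ω K A X := by
      rw [Matrix.mul_smul, hXB X hX, Matrix.smul_mul]
    rw [rho_apply, Matrix.mul_assoc, h1, ← Matrix.mul_assoc, hf.cof_mul, Matrix.one_mul]

end Pool.Agent.V5helper88.KK
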