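import Pool.Agent.V5helper88.K.K5
import Pool.Agent.V5helper88.K.K2

/-!
Coherent frames of all eigenspaces, and the vanishing theorem for multiplicity two.
-/

set_option autoImplicit false

namespace Pool.Agent.V5helper88.KK

open Matrix Module Function Pool.Agent.V5helper88.HR

variable {ι : Type} [Fintype ι] [DecidableEq ι] {Ω : Matrix ι ι ℂ}
  {H : Submodule ℂ (Matrix ι ι ℂ)} {P : Matrix ι ι ℂ} {L : Finset ℂ}

theorem frame_e (hP : Spec Ω H P L) {z : ℂ} (hz : z ∈ L) {κ : Type} [Fintype κ] [DecidableEq κ]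
    {K : Matrix κ κ ℂ} {A : Matrix ι κ ℂ} (hA : Frame Ω H K A)
    (hr : LinearMap.range A.mulVecLin = Yz P z) :
    ez P L z * A = A ∧ cof Ω K A * ez P L z = cof Ω K A ∧ A * cof Ω K A = ez P L z := by
  have h1 : ez P L z * A = A := by
    ext i j
    have h2 : A *ᵥ Pi.single j 1 ∈ Yz P z := by rw [← hr]; exact ⟨_, rfl⟩
    have h3 := hP.e_fix hz h2
    rw [mulVec_mulVec, mulVec_single_one, mulVec_single_one] at h3
    exact congrFun h3 i
  have h2 : cof Ω K A * ez P L z = cof Ω K A := by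
    unfold cof
    rw [Matrix.neg_mul, Matrix.mul_assoc, ← hP.e_sy z, ← Matrix.mul_assoc, Matrix.mul_assoc K,
      ← transpose_mul, h1]
  refine ⟨h1, h2, ?_⟩
  rw [← h2, ← Matrix.mul_assoc]
  apply (toLin').injective
  refine LinearMap.ext fun v => ?_
  rw [toLin'_apply, toLin'_apply, ← mulVec_mulVec]
  have h3 := hP.e_mem hz v
  rw [← hr] at h3
  obtain ⟨w, hw⟩ := h3
  rw [mulVecLin_apply] at hw
  rw [← hw, mulVec_mulVec, Matrix.mul_assoc, hA.cof_mul, Matrix.mul_one]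

section classes

variable {C : Type} [Fintype C] [DecidableEq C] {κ : C → Type} [∀ c, Fintype (κ c)]
  [∀ c, DecidableEq (κ c)] {K : ∀ c, Matrix (κ c) (κ c) ℂ} {A : ∀ c, Matrix ι (κ c) ℂ}
  {cl : {z // z ∈ L} → C} {sec : C → {z // z ∈ L}}

/-- Representatives of the classes. -/
theorem reps_of (hS : SysW Ω H) (hP : Spec Ω H P L)
    (hcl : ∀ z w, Link H P L z.1 w.1 → cl z = cl w) (hsec : ∀ c, cl (sec c) = c)
    (hA : ∀ c, Frame Ω H (K c) (A c))
    (hr : ∀ c, LinearMap.range (A c).mulVecLin = Yz P (sec c).1) : Reps Ω H K A := by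
  refine ⟨hA, fun c W hW => ?_, fun c c' hne M hM => ?_⟩
  · have h1 : Stable H (W.map (A c).mulVecLin) := by
      rintro X hX _ ⟨w, hw, rfl⟩
      refine ⟨rho Ω (K c) (A c) X *ᵥ w, hW X hX w hw, ?_⟩
      rw [mulVecLin_apply, mulVecLin_apply, mulVec_mulVec, mulVec_mulVec, (hA c).mul_B hX]
    rcases hP.Y_irr hS (sec c).2 h1 (by rw [← hr]; exact LinearMap.map_le_range) with h2 | h2
    · left
      rw [Submodule.eq_bot_iff]
      intro w hw
      have h3 : (A c).mulVecLin w ∈ W.map (A c).mulVecLin := ⟨w, hw, rfl⟩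
      rw [h2, Submodule.mem_bot, mulVecLin_apply] at h3
      exact (hA c).B_inj (by rw [h3, mulVec_zero])
    · right
      rw [eq_top_iff]
      intro v _
      have h3 : (A c).mulVecLin v ∈ Yz P (sec c).1 := by rw [← hr]; exact ⟨_, rfl⟩
      rw [← h2] at h3
      obtain ⟨w, hw, hw'⟩ := h3
      rw [mulVecLin_apply, mulVecLin_apply] at hw'
      rw [← (hA c).B_inj hw']
      exact hw
  · by_contra hM0
    apply hne
    have hT := fr_cm hS.sk (hA c) (hA c') hM
    obtain ⟨e1, -, -⟩ := frame_e hP (sec c).2 (hA c) (hr c)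
    obtain ⟨-, e2, -⟩ := frame_e hP (sec c').2 (hA c') (hr c')
    have h1 : Link H P L (sec c').1 (sec c).1 := by
      refine ⟨_, hT, fun h0 => hM0 ?_⟩
      have h2 : ez P L (sec c).1 * (A c * M * cof Ω (K c') (A c')) * ez P L (sec c').1
          = A c * M * cof Ω (K c') (A c') := by
        rw [← Matrix.mul_assoc, ← Matrix.mul_assoc, e1, Matrix.mul_assoc _ _ (ez P L (sec c').1),
          e2]
      rw [h2] at h0
      have h3 : cof Ω (K c) (A c) * (A c * M * cof Ω (K c') (A c')) * A c' = M := by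
        rw [← Matrix.mul_assoc, ← Matrix.mul_assoc, (hA c).cof_mul, Matrix.one_mul,
          Matrix.mul_assoc, (hA c').cof_mul, Matrix.mul_one]
      rw [← h3, h0, Matrix.mul_zero, Matrix.zero_mul]
    have h2 := hcl _ _ h1
    rw [hsec, hsec] at h2
    exact h2.symm

/-- Coherent frames of all eigenspaces. -/
theorem exists_coh_all (hS : SysW Ω H) (hP : Spec Ω H P L) [Nonempty ι]
    (hcl : ∀ z w, cl z = cl w → Link H P L z.1 w.1) (hsec : ∀ c, cl (sec c) = c)
    (hA : ∀ c, Frame Ω H (K c) (A c))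
    (hr : ∀ c, LinearMap.range (A c).mulVecLin = Yz P (sec c).1) :
    ∃ B : ∀ z, Matrix ι (κ (cl z)) ℂ, (∀ z, Frame Ω H (K (cl z)) (B z)) ∧
      (∀ z, LinearMap.range (B z).mulVecLin = Yz P z.1) ∧
      ∀ z, ∀ X ∈ H, rho Ω (K (cl z)) (B z) X = rho Ω (K (cl z)) (A (cl z)) X := by
  have h1 : ∀ z : {z // z ∈ L}, ∃ B : Matrix ι (κ (cl z)) ℂ, Frame Ω H (K (cl z)) B ∧
      LinearMap.range B.mulVecLin = Yz P z.1 ∧
      ∀ X ∈ H, rho Ω (K (cl z)) B X = rho Ω (K (cl z)) (A (cl z)) X := by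
    intro z
    exact exists_coh hS hP (sec (cl z)).2 z.2 (hcl _ _ (hsec (cl z))) (hA (cl z)) (hr (cl z))
  choose B hB1 hB2 hB3 using h1
  exact ⟨B, hB1, hB2, hB3⟩

end classes

section prim

variable {κ : Type} [Fintype κ] [DecidableEq κ] {φ : (ι → ℂ) [⋀^κ]→ₗ[ℂ] ℂ}

/-- The contraction of two isomorphic subspaces. -/
theorem prim_pair (hφ : Prim Ω H φ) (hsk : ∀ X ∈ H, Xᵀ * Ω = -(Ω * X)) {κ' : Type}
    [Fintype κ'] [DecidableEq κ'] {K : Matrix κ' κ' ℂ} {B₁ B₂ : Matrix ι κ' ℂ}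
    (h₁ : Frame Ω H K B₁) (h₂ : Frame Ω H K B₂)
    (hrho : ∀ X ∈ H, rho Ω K B₁ X = rho Ω K B₂ X)
    (v : κ → ι → ℂ) {s s' : κ} (h : s ≠ s') :
    ∑ p, ∑ q, K p q * bil φ v h (B₁ *ᵥ Pi.single p 1) (B₂ *ᵥ Pi.single q 1) = 0 := by
  have h0 := fr_cm hsk h₁ h₂ (P := 1) (fun X hX => by
    rw [Matrix.mul_one, Matrix.one_mul, hrho X hX])
  have h1 : Cm H ((B₁ * K * B₂ᵀ) * Ω) := by
    have h2 : (B₁ * K * B₂ᵀ) * Ω = (-1 : ℂ) • (B₁ * (1 : Matrix κ' κ' ℂ) * cof Ω K B₂) := by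
      unfold cof
      rw [Matrix.mul_neg, smul_neg, neg_smul, one_smul, neg_neg, Matrix.mul_one]
      simp only [Matrix.mul_assoc]
    rw [h2]
    exact h0.smul _
  have h3 := hφ.con _ h1 s s' h v
  rw [← h3]
  have h4 : ∀ p q, K p q * bil φ v h (B₁ *ᵥ Pi.single p 1) (B₂ *ᵥ Pi.single q 1)
      = ∑ i, ∑ j, B₁ i p * K p q * B₂ j q * bil φ v h (Pi.single i 1) (Pi.single j 1) := by
    intro p q
    rw [mulVec_basis, mulVec_basis, LinearMap.map_sum₂, Finset.mul_sum]
    refine Finset.sum_congr rfl fun i _ => ?_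
    rw [LinearMap.map_smul₂, map_sum, smul_eq_mul, Finset.mul_sum, Finset.mul_sum]
    refine Finset.sum_congr rfl fun j _ => ?_
    rw [map_smul, smul_eq_mul]
    ring
  have h5 : ∀ i j, (B₁ * K * B₂ᵀ) i j = ∑ p, ∑ q, B₁ i p * K p q * B₂ j q := by
    intro i j
    rw [mul_apply, Finset.sum_comm]
    refine Finset.sum_congr rfl fun q _ => ?_
    rw [mul_apply, Finset.sum_mul]
    rfl
  simp only [h4, h5, Finset.sum_mul]
  have c1 : ∀ (f : κ' → κ' → ι → ι → ℂ),
      ∑ p, ∑ q, ∑ i, ∑ j, f p q i j = ∑ i, ∑ j, ∑ p, ∑ q, f p q i j := by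
    intro f
    calc ∑ p, ∑ q, ∑ i, ∑ j, f p q i j = ∑ p, ∑ i, ∑ q, ∑ j, f p q i j :=
          Finset.sum_congr rfl fun p _ => Finset.sum_comm
      _ = ∑ i, ∑ p, ∑ q, ∑ j, f p q i j := Finset.sum_comm
      _ = ∑ i, ∑ p, ∑ j, ∑ q, f p q i j :=
          Finset.sum_congr rfl fun i _ => Finset.sum_congr rfl fun p _ => Finset.sum_comm
      _ = ∑ i, ∑ j, ∑ p, ∑ q, f p q i j :=
          Finset.sum_congr rfl fun i _ => Finset.sum_comm
  rw [c1]
  rfl

theorem upd_comp {α β : Type} (f : κ → α → β) (i : κ → α) (s : κ) (t : α) :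
    (fun r => f r (update i s t r)) = update (fun r => f r (i r)) s (f s t) := by
  funext r
  by_cases h : r = s
  · subst h; rw [update_self, update_self]
  · rw [update_of_ne h, update_of_ne h]

variable {C : Type} [DecidableEq C] {Λ : Type} [DecidableEq Λ] {cl : Λ → C}
  {B : Λ → Matrix ι (Fin 4) ℂ} {R : C → Matrix ι ι ℂ → Matrix (Fin 4) (Fin 4) ℂ}

/-- **Vanishing for multiplicity two.** -/
theorem vanish_two (hsk : ∀ X ∈ H, Xᵀ * Ω = -(Ω * X)) (hB : ∀ z, Frame Ω H J4 (B z))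
    (hR : ∀ z, ∀ X ∈ H, rho Ω J4 (B z) X = R (cl z) X)
    (hirr : ∀ z, Irr J4 {ρ | ∃ X ∈ H, ρ = R (cl z) X})
    (hsplit : ∀ X ∈ H, ∀ c, ∃ X' ∈ H, ∀ z, R (cl z) X' = if cl z = c then R (cl z) X else 0)
    (htwo : ∀ z w u, cl z = cl w → cl w = cl u → z = w ∨ w = u ∨ z = u)
    (hsp : ∀ v : ι → ℂ, v ∈ Submodule.span ℂ {v | ∃ z i, v = B z *ᵥ Pi.single i 1})
    [Nonempty κ] (hφ : Prim Ω H φ) : φ = 0 := by
  have key : ∀ (z : κ → Λ) (i : κ → Fin 4), φ (fun s => B (z s) *ᵥ Pi.single (i s) 1) = 0 := by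
    intro z
    let s₀ : κ := Classical.arbitrary κ
    set c := cl (z s₀) with hc
    let S : Finset κ := Finset.univ.filter fun s => cl (z s) = c
    have hmS : ∀ s, s ∈ S ↔ cl (z s) = c := fun s => by simp [S]
    let ψ : (κ → Fin 4) → ℂ := fun i => φ fun s => B (z s) *ᵥ Pi.single (i s) 1
    have hupd : ∀ (i : κ → Fin 4) s t, (fun r => B (z r) *ᵥ (Pi.single (update i s t r) 1 : Fin 4 → ℂ))
        = update (fun r => B (z r) *ᵥ (Pi.single (i r) 1 : Fin 4 → ℂ)) s
          (B (z s) *ᵥ Pi.single t 1) := fun i s t =>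
      upd_comp (fun r (a : Fin 4) => B (z r) *ᵥ (Pi.single a 1 : Fin 4 → ℂ)) i s t
    have hψ : ψ = 0 := by
      refine class_zero (R := {ρ | ∃ X ∈ H, ρ = R c X}) (S := S) (col := z)
        (by rw [hc]; exact hirr (z s₀)) ⟨?_, ?_, ?_⟩ ⟨s₀, (hmS s₀).2 rfl⟩ ?_
      · rintro _ ⟨X, hX, rfl⟩ i
        obtain ⟨X', hX', h1⟩ := hsplit X hX c
        have h2 := hφ.inv X' hX' (fun s => B (z s) *ᵥ Pi.single (i s) 1)
        have h3 : ∀ s, φ (update (fun r => B (z r) *ᵥ (Pi.single (i r) 1 : Fin 4 → ℂ)) s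
            (X' *ᵥ (B (z s) *ᵥ Pi.single (i s) 1)))
            = if cl (z s) = c then ∑ t, R c X t (i s) * ψ (update i s t) else 0 := by
          intro s
          have e1 : X' *ᵥ (B (z s) *ᵥ (Pi.single (i s) 1 : Fin 4 → ℂ))
              = B (z s) *ᵥ (R (cl (z s)) X' *ᵥ Pi.single (i s) 1) := by
            rw [mulVec_mulVec, (hB (z s)).mul_B hX', hR (z s) X' hX', mulVec_mulVec]
          rw [e1, h1]
          by_cases h4 : cl (z s) = c
          · rw [if_pos h4, if_pos h4, h4]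
            have e2 : R c X *ᵥ (Pi.single (i s) 1 : Fin 4 → ℂ)
                = ∑ t, R c X t (i s) • (Pi.single t 1 : Fin 4 → ℂ) := mulVec_basis _ _
            rw [e2, mulVec_sum]
            have e3 := map_sum (φ.toMultilinearMap.toLinearMap
              (fun r => B (z r) *ᵥ (Pi.single (i r) 1 : Fin 4 → ℂ)) s)
              (fun t => B (z s) *ᵥ (R c X t (i s) • (Pi.single t 1 : Fin 4 → ℂ))) Finset.univ
            change φ (update _ s _) = _ at e3
            rw [e3]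
            refine Finset.sum_congr rfl fun t _ => ?_
            change φ (update _ s _) = _
            rw [mulVec_smul, φ.map_update_smul, smul_eq_mul, ← hupd]
          · rw [if_neg h4, if_neg h4, zero_mulVec, mulVec_zero]
            exact φ.map_update_zero _ _
        rw [Finset.sum_congr rfl fun s _ => h3 s, ← Finset.sum_filter] at h2
        exact h2
      · intro s hs s' hs' hne i
        have h1 := prim_pair hφ hsk (hB (z s)) (hB (z s')) (fun X hX => by
          rw [hR _ X hX, hR _ X hX, (hmS s).1 hs, (hmS s').1 hs'])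
          (fun r => B (z r) *ᵥ (Pi.single (i r) 1 : Fin 4 → ℂ)) hne
        rw [← h1]
        refine Finset.sum_congr rfl fun p _ => Finset.sum_congr rfl fun q _ => ?_
        rw [bil_apply]
        change _ * φ _ = _
        rw [hupd, hupd]
      · intro s hs s' hs' hne hzz i p q
        have h1 := bil_swap φ (fun r => B (z r) *ᵥ (Pi.single (i r) 1 : Fin 4 → ℂ)) hne
          (B (z s) *ᵥ Pi.single p 1) (B (z s) *ᵥ Pi.single q 1)
        rw [bil_apply, bil_apply] at h1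
        change φ _ = -φ _
        rw [hupd, hupd, hupd, hupd, ← hzz]
        exact h1
      · intro s hs s' hs' s'' hs''
        exact htwo _ _ _ (((hmS s).1 hs).trans ((hmS s').1 hs').symm)
          (((hmS s').1 hs').trans ((hmS s'').1 hs'').symm)
    intro i
    exact congrFun hψ i
  have hsp' : ⊤ ≤ Submodule.span ℂ {v : ι → ℂ | ∃ z i, v = B z *ᵥ Pi.single i 1} := fun v _ => hsp v
  refine Basis.ext_alternating (Basis.ofSpan hsp') fun v _ => ?_
  have h1 : ∀ s, ∃ z i, Basis.ofSpan hsp' (v s) = B z *ᵥ Pi.single i 1 := fun s =>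
    Basis.ofSpan_subset hsp' ⟨v s, rfl⟩
  choose z i hzi using h1
  rw [AlternatingMap.zero_apply]
  have h2 : (fun s => Basis.ofSpan hsp' (v s)) = fun s => B (z s) *ᵥ (Pi.single (i s) 1) :=
    funext hzi
  rw [h2]
  exact key z i

end prim

/-- **The vanishing theorem** for eigenspaces of dimension four and multiplicities at most two. -/
theorem vanish_spec (hS : SysW Ω H) (hP : Spec Ω H P L) [Nonempty ι]
    (hdim : ∀ z ∈ L, finrank ℂ (Yz P z) = 4)
    (htwo : ∀ z ∈ L, ∀ w ∈ L, ∀ u ∈ L, Link H P L z w → Link H P L w u → z = w ∨ w = u ∨ z = u)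
    {κ : Type} [Fintype κ] [DecidableEq κ] [Nonempty κ] {φ : (ι → ℂ) [⋀^κ]→ₗ[ℂ] ℂ}
    (hφ : Prim Ω H φ) : φ = 0 := by
  classical
  let st : Setoid {z // z ∈ L} :=
    { r := fun z w => Link H P L z.1 w.1
      iseqv := ⟨fun z => link_refl hP z.2, fun h => link_symm hP hS h,
        fun {_ w _} h h' => link_trans hP hS w.2 h h'⟩ }
  let C : Type := Quotient st
  let cl : {z // z ∈ L} → C := fun z => Quotient.mk st z
  let sec : C → {z // z ∈ L} := fun c => Quotient.out c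
  haveI : Fintype C := Fintype.ofSurjective cl (fun c => ⟨Quotient.out c, Quotient.out_eq c⟩)
  have hsec : ∀ c, cl (sec c) = c := fun c => Quotient.out_eq c
  have hcl : ∀ z w, cl z = cl w ↔ Link H P L z.1 w.1 := fun z w => Quotient.eq (r := st)
  have hfr : ∀ c : C, ∃ A : Matrix ι (Fin 4) ℂ, Frame Ω H J4 A ∧
      LinearMap.range A.mulVecLin = Yz P (sec c).1 := by
    intro c
    rcases exists_frame' hS.alt (hP.Y_st (sec c).1) (hP.ne _ (sec c).2)
      (fun v hv h => hP.Y_nd hS hv h) (hdim _ (sec c).2).le with ⟨A, hA, hr⟩ | ⟨A, hA, hr⟩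
    · exfalso
      have h1 := fr_rank hA
      rw [hr, hdim _ (sec c).2, Fintype.card_fin] at h1
      norm_num at h1
    · exact ⟨A, hA, hr⟩
  choose A hA hr using hfr
  have hRep : Reps Ω H (fun _ : C => J4) A :=
    reps_of hS hP (fun z w h => (hcl z w).2 h) hsec hA hr
  obtain ⟨B, hB1, hB2, hB3⟩ := exists_coh_all (cl := cl) (κ := fun _ : C => Fin 4) hS hP
    (fun z w h => (hcl z w).1 h) hsec hA hr
  refine vanish_two (C := C) (Λ := {z // z ∈ L}) (cl := cl) (B := B)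
    (R := fun c X => rho Ω J4 (A c) X) hS.sk hB1 hB3 ?_ ?_ ?_ ?_ hφ
  · intro z
    refine ⟨?_, ?_, ?_⟩
    · rintro _ ⟨X, hX, rfl⟩
      exact fr_sk hS.sk (hA _) hX
    · intro M hM
      exact irr_scalar (R := {ρ | ∃ X ∈ H, ρ = rho Ω J4 (A (cl z)) X})
        (fun W hW => hRep.irr _ W fun X hX => hW _ ⟨X, hX, rfl⟩) hM
    · intro W hW
      exact hRep.irr _ W fun X hX => hW _ ⟨X, hX, rfl⟩
  · intro X hX c
    obtain ⟨X', hX', h1⟩ := reps_split hS hRep (m := 4) (Or.inr rfl)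
      (fun c => Fintype.card_fin 4) hX c
    exact ⟨X', hX', fun z => h1 (cl z)⟩
  · intro z w u h1 h2
    rcases htwo z.1 z.2 w.1 w.2 u.1 u.2 ((hcl z w).1 h1) ((hcl w u).1 h2) with h | h | h
    · exact Or.inl (Subtype.ext h)
    · exact Or.inr (Or.inl (Subtype.ext h))
    · exact Or.inr (Or.inr (Subtype.ext h))
  · intro v
    have h1 : v = ∑ z ∈ L, ez P L z *ᵥ v := by
      rw [← sum_mulVec, hP.sum_e, one_mulVec]
    rw [h1]
    refine Submodule.sum_mem _ fun z hz => ?_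
    have h2 := hP.e_mem hz v
    rw [← hB2 ⟨z, hz⟩] at h2
    obtain ⟨w, hw⟩ := h2
    rw [← hw, mulVecLin_apply]
    have h3 : w = ∑ i, w i • (Pi.single i 1 : Fin 4 → ℂ) := by
      funext k
      simp [Finset.sum_apply, Pi.single_apply]
    rw [h3, mulVec_sum]
    refine Submodule.sum_mem _ fun i _ => ?_
    rw [mulVec_smul]
    exact Submodule.smul_mem _ _ (Submodule.subset_span ⟨⟨z, hz⟩, i, rfl⟩)

end Pool.Agent.V5helper88.KK
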