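import Pool.Agent.V5helper88.K.K3
import Pool.Agent.V5helper88.HR.G20

/-!
Forms all of whose complete contractions with symmetric elements of the commutant vanish.
-/

set_option autoImplicit false

namespace Pool.Agent.V5helper88.KK

open Matrix Module Function Pool.Agent.V5helper88.HR

variable {ι : Type} [Fintype ι] [DecidableEq ι] {Ω : Matrix ι ι ℂ}
  {H : Submodule ℂ (Matrix ι ι ℂ)} {k : ℕ}

theorem bivector' (hS : SysW Ω H) {Q : Matrix ι ι ℂ} (hQ : Cm H (Q * Ω)) {X : Matrix ι ι ℂ}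
    (hX : X ∈ H) : X * Q + Q * Xᵀ = 0 := by
  have h1 := hQ X hX
  have h2 : Ω * X = -(Xᵀ * Ω) := by rw [hS.sk X hX, neg_neg]
  have h3 : (X * Q + Q * Xᵀ) * Ω = 0 := by
    rw [add_mul, mul_assoc, ← h1, mul_assoc, mul_assoc, h2, mul_neg]
    abel
  have h4 : Ω * (X * Q + Q * Xᵀ)ᵀ = Ω * 0 := by
    have h5 := congrArg transpose h3
    rw [transpose_mul, hS.alt, transpose_zero, neg_mul, neg_eq_zero] at h5
    rw [h5, mul_zero]
  have h5 := congrArg transpose (left_inj hS.nd h4)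
  rwa [transpose_transpose, transpose_zero] at h5

/-- The transposed bivector. -/
theorem cm_tr (hS : SysW Ω H) {Q : Matrix ι ι ℂ} (hQ : Cm H (Q * Ω)) : Cm H (Qᵀ * Ω) := by
  intro X hX
  have h1 := congrArg transpose (bivector' hS hQ hX)
  rw [transpose_add, transpose_mul, transpose_mul, transpose_transpose, transpose_zero] at h1
  have h2 : X * Qᵀ = -(Qᵀ * Xᵀ) := by
    rw [eq_neg_iff_add_eq_zero, add_comm]; exact h1
  rw [← mul_assoc, h2, mul_assoc, neg_mul, mul_assoc, hS.sk X hX, mul_neg] <;> simp [mul_assoc]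

theorem con1_kil' (hS : SysW Ω H) {Q : Matrix ι ι ℂ} (hQ : Cm H (Q * Ω))
    {φ : (ι → ℂ) [⋀^Fin (k + 1) × Fin 2]→ₗ[ℂ] ℂ} (hφ : Kil H φ) : Kil H (con1 Q φ) := by
  intro X hX w
  simp only [con1_apply]
  have h1 : ∀ i j, ∑ p : Fin k × Fin 2, Q i j *
      φ (c2 (Pi.single i 1) (Pi.single j 1) (update w p (X *ᵥ w p)))
      = -(Q i j * (φ (c2 (X *ᵥ Pi.single i 1) (Pi.single j 1) w)
        + φ (c2 (Pi.single i 1) (X *ᵥ Pi.single j 1) w))) := by
    intro i j
    have h2 := hφ X hX (c2 (Pi.single i 1) (Pi.single j 1) w)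
    rw [sum_c2, c2_zero, c2_one, c2_update0, c2_update1] at h2
    simp only [c2_update, c2_succ, Prod.mk.eta] at h2
    rw [← Finset.mul_sum]
    linear_combination Q i j * h2
  have h3 : ∀ p : Fin k × Fin 2, ∑ i, ∑ j, Q i j *
      φ (c2 (Pi.single i 1) (Pi.single j 1) (update w p (X *ᵥ w p)))
      = ∑ t : ι × ι, Q t.1 t.2 *
      φ (c2 (Pi.single t.1 1) (Pi.single t.2 1) (update w p (X *ᵥ w p))) := fun p => by
    rw [Fintype.sum_prod_type]
  simp only [h3]
  rw [Finset.sum_comm, Finset.sum_congr rfl fun t _ => h1 t.1 t.2, Fintype.sum_prod_type]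
  simp only [Finset.sum_neg_distrib]
  rw [neg_eq_zero]
  obtain ⟨m, hm⟩ := bil2 φ w
  simp only [← hm]
  have e1 : ∀ i j, m (X *ᵥ Pi.single i 1) (Pi.single j 1)
      = ∑ l, X l i * m (Pi.single l 1) (Pi.single j 1) := by
    intro i j
    rw [mulVec_basis, LinearMap.map_sum₂]
    refine Finset.sum_congr rfl fun l _ => ?_
    rw [LinearMap.map_smul₂, smul_eq_mul]
  have e2 : ∀ i j, m (Pi.single i 1) (X *ᵥ Pi.single j 1)
      = ∑ l, X l j * m (Pi.single i 1) (Pi.single l 1) := by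
    intro i j
    rw [mulVec_basis, map_sum]
    refine Finset.sum_congr rfl fun l _ => ?_
    rw [map_smul, smul_eq_mul]
  simp only [e1, e2, mul_add, Finset.sum_add_distrib]
  have h4 : ∑ i, ∑ j, Q i j * ∑ l, X l i * m (Pi.single l 1) (Pi.single j 1)
      = ∑ l, ∑ j, (X * Q) l j * m (Pi.single l 1) (Pi.single j 1) := by
    simp only [Finset.mul_sum, mul_apply, Finset.sum_mul]
    rw [Finset.sum_congr rfl fun i _ => Finset.sum_comm, Finset.sum_comm]
    refine Finset.sum_congr rfl fun l _ => ?_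
    rw [Finset.sum_comm]
    refine Finset.sum_congr rfl fun j _ => Finset.sum_congr rfl fun i _ => ?_
    ring
  have h5 : ∑ i, ∑ j, Q i j * ∑ l, X l j * m (Pi.single i 1) (Pi.single l 1)
      = ∑ i, ∑ l, (Q * Xᵀ) i l * m (Pi.single i 1) (Pi.single l 1) := by
    refine Finset.sum_congr rfl fun i _ => ?_
    simp only [Finset.mul_sum, mul_apply, Finset.sum_mul, transpose_apply]
    rw [Finset.sum_comm]
    refine Finset.sum_congr rfl fun j _ => Finset.sum_congr rfl fun l _ => ?_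
    ring
  rw [h4, h5, ← Finset.sum_add_distrib]
  refine Finset.sum_eq_zero fun i _ => ?_
  rw [← Finset.sum_add_distrib]
  refine Finset.sum_eq_zero fun j _ => ?_
  rw [← add_mul, ← Matrix.add_apply, bivector' hS hQ hX, Matrix.zero_apply, zero_mul]

theorem c2_swap (φ : (ι → ℂ) [⋀^Fin (k + 1) × Fin 2]→ₗ[ℂ] ℂ) (w : Fin k × Fin 2 → ι → ℂ)
    (x y : ι → ℂ) : φ (c2 y x w) = -φ (c2 x y w) := by
  have h : ((0, 0) : Fin (k + 1) × Fin 2) ≠ (0, 1) := by simp
  have h1 := bil_swap φ (c2 0 0 w) h x y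
  rw [bil_apply, bil_apply, c2_update0, c2_update1, c2_update0, c2_update1] at h1
  exact h1

theorem con1_tr (Q : Matrix ι ι ℂ) (φ : (ι → ℂ) [⋀^Fin (k + 1) × Fin 2]→ₗ[ℂ] ℂ) :
    con1 Qᵀ φ = -con1 Q φ := by
  ext w
  rw [AlternatingMap.neg_apply, con1_apply, con1_apply, Finset.sum_comm, ← Finset.sum_neg_distrib]
  refine Finset.sum_congr rfl fun i _ => ?_
  rw [← Finset.sum_neg_distrib]
  refine Finset.sum_congr rfl fun j _ => ?_
  rw [transpose_apply, c2_swap, mul_neg]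

/-- Invariant forms all of whose complete contractions vanish. -/
theorem full_vanish' (hS : SysW Ω H)
    (hvan : ∀ (k : ℕ) (φ : (ι → ℂ) [⋀^Fin (k + 1) × Fin 2]→ₗ[ℂ] ℂ), Prim Ω H φ → φ = 0)
    {S : Set (Matrix ι ι ℂ)} (hSc : ∀ Q ∈ S, Cm H (Q * Ω))
    (hSp : ∀ Q : Matrix ι ι ℂ, Cm H (Q * Ω) → Qᵀ = -Q → Q ∈ Submodule.span ℂ S) :
    ∀ (k : ℕ) (φ : (ι → ℂ) [⋀^Fin k × Fin 2]→ₗ[ℂ] ℂ), Kil H φ →
      (∀ Q : Fin k → Matrix ι ι ℂ, (∀ i, Q i ∈ S) → full Q φ = 0) → φ = 0 := by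
  intro k
  induction k with
  | zero =>
    intro φ _ h
    have h1 := h (fun i => i.elim0) (fun i => i.elim0)
    unfold full at h1
    rw [Finset.sum_congr rfl fun v _ => by rw [Finset.prod_eq_one fun i _ => i.elim0, one_mul]]
      at h1
    have h2 : ∀ v : Fin 0 × Fin 2 → ι, φ (fun p => Pi.single (v p) 1) = φ 0 := by
      intro v
      congr 1
      funext p
      exact p.1.elim0
    rw [Finset.sum_congr rfl fun v _ => h2 v, Finset.sum_const, Finset.card_univ] at h1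
    have h3 : Fintype.card (Fin 0 × Fin 2 → ι) = 1 := by
      rw [Fintype.card_fun]
      simp
    rw [h3, one_smul] at h1
    ext w
    rw [AlternatingMap.zero_apply, ← h1]
    congr 1
    funext p
    exact p.1.elim0
  | succ k ih =>
    intro φ hφ h
    have h1 : ∀ Q ∈ S, con1 Q φ = 0 := by
      intro Q hQ
      refine ih _ (con1_kil' hS (hSc Q hQ) hφ) fun Q' hQ' => ?_
      rw [← full_succ]
      refine h _ fun i => ?_
      refine Fin.cases ?_ (fun i => ?_) i
      · exact hQ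
      · exact hQ' i
    refine hvan k φ (prim_of_con1 hφ fun Q hQ => ?_)
    have h2 : ∀ Q' : Matrix ι ι ℂ, Cm H (Q' * Ω) → Q'ᵀ = -Q' → con1 Q' φ = 0 := by
      intro Q' hQ' ht
      refine Submodule.span_induction (p := fun Q _ => con1 Q φ = 0) ?_ ?_ ?_ ?_ (hSp Q' hQ' ht)
      · exact h1
      · exact con1_zero φ
      · intro x y _ _ hx hy
        rw [con1_add, hx, hy, add_zero]
      · intro z x _ hx
        rw [con1_smul, hx, smul_zero]
    have h3 := h2 (Q - Qᵀ) (by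
      rw [sub_mul]
      exact hQ.sub (cm_tr hS hQ)) (by rw [transpose_sub, transpose_transpose, neg_sub])
    have h4 : con1 (Q - Qᵀ) φ = (2 : ℂ) • con1 Q φ := by
      have h5 : Q - Qᵀ = Q + (-1 : ℂ) • Qᵀ := by rw [neg_one_smul, sub_eq_add_neg]
      rw [h5, con1_add, con1_smul, con1_tr, neg_one_smul, neg_neg, two_smul]
    rw [h4] at h3
    exact (smul_eq_zero.mp h3).resolve_left two_ne_zero

end Pool.Agent.V5helper88.KK
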