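import Pool.Agent.V5helper88.K.K6
import Pool.Agent.V5helper88.K.K7
import Pool.Agent.V5helper88.HR.G22

/-!
Abelian varieties: symmetric endomorphisms which generate their own commutant.
-/

set_option autoImplicit false

namespace Pool.Agent.V5helper88.KK

open Matrix Module Function Pool.Agent.Y102 Pool.Agent.W516.DR Pool.Agent.H204R3.GP
  Pool.Agent.W516.KC Pool.Agent.H204R3.SP Pool.Agent.N208.BT Pool.Agent.V5helper88.HR

noncomputable section

variable {g : ℕ} {A : AbVar g} {b : Basis (Fin (2 * g)) ℚ A.H1} {k : ℕ}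

/-- The system attached to an abelian variety. -/
theorem sysw (b : Basis (Fin (2 * g)) ℚ A.H1) : SysW (cc (Om b)) (HH b) := by
  refine ⟨?_, ?_, HH_br, ?_, ?_⟩
  · rw [← cc_tr, Om_tr, cc_neg]
  · intro v hv
    by_contra h0
    have h1 : (cc (Om b)).det = 0 := Matrix.exists_mulVec_eq_zero_iff.mp ⟨v, h0, hv⟩
    have h2 : (cc (Om b)).det = algebraMap ℚ ℂ (Om b).det := by
      unfold cc
      exact (RingHom.map_det _ _).symm
    rw [h2] at h1
    exact Om_det b ((map_eq_zero _).mp h1)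
  · intro X hX
    refine Submodule.span_induction (p := fun X _ => Xᵀ * cc (Om b) = -(cc (Om b) * X))
      ?_ ?_ ?_ ?_ hX
    · rintro _ ⟨X, hX, rfl⟩
      rw [← cc_tr, ← cc_mul, ← cc_mul, mt_skew (A.LA_skew hX), cc_neg]
    · rw [transpose_zero, zero_mul, mul_zero, neg_zero]
    · intro x y _ _ hx hy
      rw [transpose_add, add_mul, mul_add, hx, hy, neg_add]
    · intro z x _ hx
      rw [transpose_smul, smul_mul_assoc, hx, mul_smul_comm, smul_neg]
  · intro Y hY
    exact exists_proj hY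

/-- The symmetric endomorphisms. -/
def ES (A : AbVar g) : Submodule ℚ (Module.End ℚ A.H1) where
  carrier := {P | P ∈ A.EA ∧ ∀ u v, A.om (P u) v = A.om u (P v)}
  zero_mem' := ⟨A.EA.zero_mem, fun u v => by
    rw [LinearMap.zero_apply, LinearMap.zero_apply, map_zero, map_zero, LinearMap.zero_apply]⟩
  add_mem' := fun {P Q} hP hQ => ⟨A.EA.add_mem hP.1 hQ.1, fun u v => by
    rw [LinearMap.add_apply, LinearMap.add_apply, map_add, map_add, LinearMap.add_apply, hP.2,
      hQ.2]⟩
  smul_mem' := fun c P hP => ⟨A.EA.smul_mem c hP.1, fun u v => by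
    rw [LinearMap.smul_apply, LinearMap.smul_apply, map_smul, map_smul, LinearMap.smul_apply,
      hP.2]⟩

/-- The combinations of products of classes of symmetric endomorphisms. -/
def QS (A : AbVar g) (k : ℕ) : Submodule ℚ (AF A k) :=
  Submodule.span ℚ {ψ | ∃ P : Fin k → Module.End ℚ A.H1, (∀ i, P i ∈ ES A) ∧
    ψ = prd fun i => omP (P i)}

theorem QS_le : QS A k ≤ WA A k := by
  unfold QS
  rw [Submodule.span_le]
  rintro _ ⟨P, hP, rfl⟩ X hX v
  exact prd_kills (fun i => omP_kills (hP i).1 hX) v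

theorem span_of_core' (b : Basis (Fin (2 * g)) ℚ A.H1)
    (hcore : ∀ φ ∈ WA A k, (∀ P : Fin k → Module.End ℚ A.H1, (∀ i, P i ∈ ES A) →
      ∑ v : Fin k × Fin 2 → Fin (2 * g), (∏ i, Qm b (P i) (v (i, 0)) (v (i, 1))) *
        φ (fun p => b (v p)) = 0) → φ = 0) : WA A k ≤ QS A k := by
  haveI := fin_AF (k := k) b
  let Φ : WA A k →ₗ[ℚ] Module.Dual ℚ (QS A k) :=
    { toFun := fun φ => (prB b k (φ : AF A k)).comp (QS A k).subtype
      map_add' := fun φ ψ => by
        rw [Submodule.coe_add, map_add, LinearMap.add_comp]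
      map_smul' := fun c φ => by
        rw [Submodule.coe_smul, map_smul, LinearMap.smul_comp, RingHom.id_apply] }
  have hinj : Function.Injective Φ := by
    rw [injective_iff_map_eq_zero]
    intro φ hφ
    apply Subtype.ext
    refine hcore _ φ.2 fun P hP => ?_
    have h1 := LinearMap.congr_fun hφ ⟨prd fun i => omP (P i),
      Submodule.subset_span ⟨P, hP, rfl⟩⟩
    change pr b (φ : AF A k) (prd fun i => omP (P i)) = 0 at h1
    rw [pr_prd_om] at h1
    have h2 : ((Fintype.card (Fin k × Fin 2)).factorial : ℚ) ≠ 0 :=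
      Nat.cast_ne_zero.mpr (Nat.factorial_ne_zero _)
    exact (mul_eq_zero.mp h1).resolve_left h2
  have h1 := LinearMap.finrank_le_finrank_of_injective hinj
  rw [Subspace.dual_finrank_eq] at h1
  exact (Submodule.eq_of_le_of_finrank_le QS_le h1).ge

/-- The bilinear identity from the matrix identity. -/
theorem sym_of_mt {X : Module.End ℚ A.H1} (h : (mt b X)ᵀ * Om b = Om b * mt b X) (u v : A.H1) :
    A.om (X u) v = A.om u (X v) := by
  have h1 : A.om.comp X = (A.om.compl₂ X) := by
    refine b.ext fun i => b.ext fun j => ?_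
    rw [LinearMap.comp_apply, LinearMap.compl₂_apply, om_left, om_right, h]
  exact congrArg (fun F : A.H1 →ₗ[ℚ] A.H1 →ₗ[ℚ] ℚ => F u v) h1

/-- **All classes are combinations of products of divisor classes**, if primitive invariant forms
vanish. -/
theorem main_of_vanish (b : Basis (Fin (2 * g)) ℚ A.H1)
    (hvan : ∀ (k : ℕ) (φ : (Fin (2 * g) → ℂ) [⋀^Fin (k + 1) × Fin 2]→ₗ[ℂ] ℂ),
      Prim (cc (Om b)) (HH b) φ → φ = 0) (k : ℕ) : WA A k ≤ QS A k := by
  have hS := sysw b
  refine span_of_core' b fun φ hφ ho => ?_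
  let S : Set (Matrix (Fin (2 * g)) (Fin (2 * g)) ℂ) :=
    {Z | ∃ P ∈ ES A, Z = cc (Qm b P)}
  have hSc : ∀ Q ∈ S, Cm (HH b) (Q * cc (Om b)) := by
    rintro _ ⟨P, hP, rfl⟩
    rw [← cc_mul, Qm_Om, cc_neg]
    have h1 := (cm_cc (b := b) hP.1).smul (-1)
    rwa [neg_one_smul] at h1
  have hSp : ∀ Q : Matrix (Fin (2 * g)) (Fin (2 * g)) ℂ, Cm (HH b) (Q * cc (Om b)) → Qᵀ = -Q →
      Q ∈ Submodule.span ℂ S := by
    intro Q hQ ht
    have hsym : (Q * cc (Om b))ᵀ * cc (Om b) = cc (Om b) * (Q * cc (Om b)) := by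
      rw [transpose_mul, ht, hS.alt, neg_mul_neg, mul_assoc]
    have h1 : Q * cc (Om b) ∈ Submodule.span ℂ
        {Z | ∃ X ∈ (ES A).map (mt b).toLinearMap, Z = cc X} := by
      refine mem_span_of_lm _ _ fun l => ?_
      refine ⟨(mt b).symm (lm l (Q * cc (Om b))), ⟨comp_mem hQ l, ?_⟩, AlgEquiv.apply_symm_apply _ _⟩
      refine sym_of_mt (b := b) ?_
      rw [AlgEquiv.apply_symm_apply, ← lm_tr, ← lm_mul_cc, ← lm_cc_mul, hsym]
    have h2 : Q = (Q * cc (Om b)) * cc (RR b) := by
      rw [mul_assoc, ← cc_mul, mul_RR, cc_one, mul_one]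
    rw [h2]
    refine Submodule.span_induction (p := fun Z _ => Z * cc (RR b) ∈ Submodule.span ℂ S)
      ?_ ?_ ?_ ?_ h1
    · rintro _ ⟨_, ⟨P, hP, rfl⟩, rfl⟩
      have h3 : cc ((mt b).toLinearMap P) * cc (RR b) = (-1 : ℂ) • cc (Qm b P) := by
        unfold Qm
        rw [RR_tr, mul_neg, cc_neg, smul_neg, neg_smul, one_smul, neg_neg, cc_mul]
        rfl
      rw [h3]
      exact Submodule.smul_mem _ _ (Submodule.subset_span ⟨P, hP, rfl⟩)
    · rw [zero_mul]; exact Submodule.zero_mem _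
    · intro x y _ _ hx hy
      rw [add_mul]; exact Submodule.add_mem _ hx hy
    · intro z x _ hx
      rw [smul_mul_assoc]; exact Submodule.smul_mem _ _ hx
  have h0 : cxf b φ = 0 := by
    refine full_vanish' hS hvan hSc hSp k (cxf b φ) (cxf_kil hφ) fun Q hQ => ?_
    choose P hP hQP using hQ
    have h1 := ho P hP
    have h2 := congrArg (algebraMap ℚ ℂ) h1
    rw [map_sum, map_zero] at h2
    rw [← h2]
    unfold full
    refine Finset.sum_congr rfl fun v _ => ?_
    rw [map_mul, map_prod, cxf_basis]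
    congr 1
    refine Finset.prod_congr rfl fun i _ => ?_
    rw [hQP i]
    rfl
  apply ev_inj b
  rw [map_zero]
  funext v
  have h1 := cxf_basis b φ v
  rw [h0, AlternatingMap.zero_apply] at h1
  have h2 : (φ fun p => b (v p)) = 0 := by exact_mod_cast h1.symm
  exact h2

/-- Symmetric endomorphisms with square zero vanish. -/
theorem sym_sq_zero {N : Module.End ℚ A.H1} (hN : N ∈ ES A) (h : N * N = 0) : N = 0 := by
  obtain ⟨M, hM⟩ := A.hodge_end (A.mem_EA.1 hN.1)
  have hsym : ∀ u v, A.E (M u) v = A.E u (M v) := by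
    have h2 : A.E.comp (M.restrictScalars ℝ) = (A.E.flip.comp (M.restrictScalars ℝ)).flip := by
      refine A.ext_per fun u => A.ext_per fun v => ?_
      change A.E (M (A.per u)) (A.per v) = A.E (A.per u) (M (A.per v))
      have e1 : ∀ w, M (A.per w) = A.per (N w) := hM
      rw [e1, e1, ← AbVar.om_coe, ← AbVar.om_coe, hN.2 u v]
    intro u v
    exact congrArg (fun F : (Fin g → ℂ) →ₗ[ℝ] (Fin g → ℂ) →ₗ[ℝ] ℝ => F u v) h2
  have e1 : ∀ w, M (A.per w) = A.per (N w) := hM
  refine LinearMap.ext fun w => A.per_inj ?_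
  rw [LinearMap.zero_apply, map_zero, ← e1]
  by_contra hne
  have h1 := A.E_pos hne
  have h2 : M (M (A.per w)) = 0 := by
    rw [e1, e1]
    have h3 := LinearMap.congr_fun h w
    rw [Module.End.mul_apply, LinearMap.zero_apply] at h3
    rw [h3, map_zero]
  rw [hsym, map_smul, h2, smul_zero, map_zero] at h1
  exact lt_irrefl _ h1

open Polynomial in
theorem aeval_ES {P : Module.End ℚ A.H1} (hP : P ∈ ES A) (f : ℚ[X]) : aeval P f ∈ ES A := by
  refine ⟨A.aeval_mem hP.1 f, ?_⟩
  have hp : ∀ (n : ℕ) (u v), A.om ((P ^ n) u) v = A.om u ((P ^ n) v) := by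
    intro n
    induction n with
    | zero => intro u v; rfl
    | succ n ih =>
      intro u v
      have e1 : (P ^ (n + 1)) u = P ((P ^ n) u) := by rw [pow_succ']; rfl
      have e2 : (P ^ (n + 1)) v = (P ^ n) (P v) := by rw [pow_succ]; rfl
      rw [e1, e2, hP.2, ih]
  induction f using Polynomial.induction_on' with
  | add p q hp hq =>
    intro u v
    rw [map_add, LinearMap.add_apply, LinearMap.add_apply, map_add, map_add, LinearMap.add_apply,
      hp, hq]
  | monomial n a =>
    intro u v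
    rw [Polynomial.aeval_monomial, Algebra.algebraMap_eq_smul_one, smul_mul_assoc, one_mul,
      LinearMap.smul_apply, LinearMap.smul_apply, map_smul, map_smul, LinearMap.smul_apply, hp]

open Polynomial in
/-- The minimal polynomial of a symmetric endomorphism is squarefree. -/
theorem sqfree {P : Module.End ℚ A.H1} (hP : P ∈ ES A) : Squarefree (minpoly ℚ P) := by
  intro q hq
  obtain ⟨r, hr⟩ := hq
  have h1 : aeval P (q * r) * aeval P (q * r) = 0 := by
    rw [← map_mul]
    have h2 : q * r * (q * r) = minpoly ℚ P * r := by rw [hr]; ring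
    rw [h2, map_mul, minpoly.aeval, zero_mul]
  have h2 := sym_sq_zero (aeval_ES hP (q * r)) h1
  have h3 : minpoly ℚ P ∣ q * r := minpoly.dvd ℚ P h2
  have h0 : minpoly ℚ P ≠ 0 := minpoly.ne_zero (Algebra.IsIntegral.isIntegral P)
  obtain ⟨s, hs⟩ := h3
  have h4 : q * (minpoly ℚ P * s) = minpoly ℚ P := by
    rw [← hs, hr]; ring
  have h5 : minpoly ℚ P * (q * s) = minpoly ℚ P * 1 := by
    rw [mul_one]
    conv_rhs => rw [← h4]
    ring
  have h6 := mul_left_cancel₀ h0 h5
  exact IsUnit.of_mul_eq_one _ h6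

end

end Pool.Agent.V5helper88.KK
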