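import Pool.Agent.V5helper88.K.K8
import Pool.Agent.V5helper88.HR.G23

/-!
The eigenspaces of a symmetric endomorphism of an abelian variety which generates its own
commutant, and the theorem for eigenspaces of dimension four.
-/

set_option autoImplicit false

namespace Pool.Agent.V5helper88.KK

open Matrix Module Function Pool.Agent.Y102 Pool.Agent.W516.DR Pool.Agent.H204R3.GP
  Pool.Agent.W516.KC Pool.Agent.H204R3.SP Pool.Agent.N208.BT Pool.Agent.V5helper88.HR Polynomial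

noncomputable section

variable {g : ℕ} {A : AbVar g} {b : Basis (Fin (2 * g)) ℚ A.H1} {k : ℕ}

theorem Yz_eq {ι : Type} [Fintype ι] [DecidableEq ι] (P : Matrix ι ι ℂ) (z : ℂ) :
    Yz P z = Module.End.eigenspace (toLin' P) z := by
  ext v
  rw [Module.End.mem_eigenspace_iff, toLin'_apply]
  exact mem_Yz

theorem cc_aeval (P : Module.End ℚ A.H1) (f : ℚ[X]) :
    cc (mt b (aeval P f)) = aeval (cc (mt b P)) (f.map (algebraMap ℚ ℂ)) := by
  rw [aeval_map_algebraMap]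
  have h8 : ∀ X : Matrix (Fin (2 * g)) (Fin (2 * g)) ℚ,
      cc X = (Algebra.ofId ℚ ℂ).mapMatrix X := fun X => rfl
  rw [h8, h8, aeval_algHom_apply]
  congr 1
  rw [← aeval_algHom_apply]

theorem charpoly_cc (P : Module.End ℚ A.H1) :
    (toLin' (cc (mt b P))).charpoly = P.charpoly.map (algebraMap ℚ ℂ) := by
  rw [Matrix.charpoly_toLin']
  unfold cc
  rw [Matrix.charpoly_map]
  congr 1
  exact LinearMap.charpoly_toMatrix P b

/-- The complex roots of the minimal polynomial. -/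
def rts (P : Module.End ℚ A.H1) : Finset ℂ :=
  ((minpoly ℚ P).map (algebraMap ℚ ℂ)).roots.toFinset

theorem min_ne (P : Module.End ℚ A.H1) : (minpoly ℚ P).map (algebraMap ℚ ℂ) ≠ 0 :=
  Polynomial.map_ne_zero (minpoly.ne_zero (Algebra.IsIntegral.isIntegral P))

theorem mem_rts {P : Module.End ℚ A.H1} {z : ℂ} :
    z ∈ rts P ↔ ((minpoly ℚ P).map (algebraMap ℚ ℂ)).IsRoot z := by
  unfold rts
  rw [Multiset.mem_toFinset, mem_roots (min_ne P)]

theorem prod_rts {P : Module.End ℚ A.H1} (hP : P ∈ ES A) :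
    ∏ z ∈ rts P, (X - C z) = (minpoly ℚ P).map (algebraMap ℚ ℂ) := by
  have hm : ((minpoly ℚ P).map (algebraMap ℚ ℂ)).Monic :=
    (minpoly.monic (Algebra.IsIntegral.isIntegral P)).map _
  have hsep : (minpoly ℚ P).Separable := PerfectField.separable_iff_squarefree.mpr (sqfree hP)
  have hnd : ((minpoly ℚ P).map (algebraMap ℚ ℂ)).roots.Nodup := nodup_roots hsep.map
  have h1 := (IsAlgClosed.splits ((minpoly ℚ P).map (algebraMap ℚ ℂ))).eq_prod_roots_of_monic hm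
  conv_rhs => rw [h1]
  unfold rts
  rw [Finset.prod_eq_multiset_prod, Multiset.toFinset_val, hnd.dedup]

theorem eig_rts {P : Module.End ℚ A.H1} {z : ℂ} (hz : z ∈ rts P) : Yz (cc (mt b P)) z ≠ ⊥ := by
  rw [Yz_eq]
  have h1 : (P.charpoly.map (algebraMap ℚ ℂ)).IsRoot z := by
    obtain ⟨r, hr⟩ := LinearMap.minpoly_dvd_charpoly P
    rw [hr, Polynomial.map_mul]
    exact root_mul_right_of_isRoot _ (mem_rts.1 hz)
  have h2 : Module.End.HasEigenvalue (toLin' (cc (mt b P))) z := by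
    rw [Module.End.hasEigenvalue_iff_isRoot_charpoly, charpoly_cc]
    exact h1
  exact h2

theorem spec_of {P : Module.End ℚ A.H1} (hP : P ∈ ES A)
    (hc : ∀ Q ∈ A.EA, Q * P = P * Q → ∃ f : ℚ[X], Q = aeval P f) :
    Spec (cc (Om b)) (HH b) (cc (mt b P)) (rts P) := by
  refine ⟨cm_cc hP.1, ?_, ?_, ?_, fun z hz => eig_rts hz⟩
  · rw [← cc_tr, ← cc_mul, ← cc_mul, mt_sym hP.2]
  · rw [prod_rts hP, ← cc_aeval, minpoly.aeval, map_zero, cc_zero]
  · intro Q hQ hQP z _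
    have h1 : Q ∈ Submodule.span ℂ
        {Z | ∃ X ∈ (LinearMap.range (aeval P : ℚ[X] →ₐ[ℚ] _).toLinearMap).map
          (mt b).toLinearMap, Z = cc X} := by
      refine mem_span_of_lm _ _ fun l => ?_
      have h2 := hc _ (comp_mem hQ l) (by
        apply (mt b).injective
        rw [map_mul, map_mul, AlgEquiv.apply_symm_apply, ← lm_cc_mul, ← lm_mul_cc, hQP])
      obtain ⟨f, hf⟩ := h2
      exact ⟨(mt b).symm (lm l Q), ⟨f, hf.symm⟩, AlgEquiv.apply_symm_apply _ _⟩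
    refine Submodule.span_induction
      (p := fun Q _ => ∃ c : ℂ, ∀ v ∈ Yz (cc (mt b P)) z, Q *ᵥ v = c • v) ?_ ?_ ?_ ?_ h1
    · rintro _ ⟨_, ⟨_, ⟨f, rfl⟩, rfl⟩, rfl⟩
      refine ⟨(f.map (algebraMap ℚ ℂ)).eval z, fun v hv => ?_⟩
      change cc (mt b (aeval P f)) *ᵥ v = _
      rw [cc_aeval, aeval_vec _ hv]
    · exact ⟨0, fun v _ => by rw [zero_mulVec, zero_smul]⟩
    · rintro x y _ _ ⟨c, hc⟩ ⟨d, hd⟩
      exact ⟨c + d, fun v hv => by rw [add_mulVec, hc v hv, hd v hv, add_smul]⟩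
    · rintro a x _ ⟨c, hc⟩
      exact ⟨a * c, fun v hv => by rw [smul_mulVec, hc v hv, smul_smul]⟩

/-- The dimension of the eigenspaces. -/
theorem dim_Yz {P : Module.End ℚ A.H1} (hP : P ∈ ES A) (z : ℂ) :
    finrank ℂ (Yz (cc (mt b P)) z) = (P.charpoly.map (algebraMap ℚ ℂ)).rootMultiplicity z := by
  have hsep : (minpoly ℚ P).Separable := PerfectField.separable_iff_squarefree.mpr (sqfree hP)
  have hss : Module.End.IsSemisimple (toLin' (cc (mt b P))) := by
    refine Module.End.isSemisimple_of_squarefree_aeval_eq_zero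
      (p := (minpoly ℚ P).map (algebraMap ℚ ℂ)) hsep.map.squarefree ?_
    have h1 : aeval (cc (mt b P)) ((minpoly ℚ P).map (algebraMap ℚ ℂ)) = 0 := by
      rw [← cc_aeval, minpoly.aeval, map_zero, cc_zero]
    have h2 : (toLin' (cc (mt b P)) : Module.End ℂ (Fin (2 * g) → ℂ))
        = toLinAlgEquiv' (cc (mt b P)) := rfl
    rw [h2, aeval_algHom_apply, h1, map_zero]
  rw [Yz_eq, ← (Module.End.isFinitelySemisimple_iff_isSemisimple.mpr
    hss).maxGenEigenspace_eq_eigenspace, LinearMap.finrank_maxGenEigenspace_eq, charpoly_cc]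

/-- Linked eigenvalues have the same values of central endomorphisms. -/
theorem link_central {P : Module.End ℚ A.H1} (hS : Spec (cc (Om b)) (HH b) (cc (mt b P)) (rts P))
    {a : Module.End ℚ A.H1} (haP : a * P = P * a) (ha : ∀ Q ∈ A.EA, a * Q = Q * a)
    (haE : a ∈ A.EA) {z w : ℂ} (hz : z ∈ rts P) (hw : w ∈ rts P)
    (hl : Link (HH b) (cc (mt b P)) (rts P) z w) {c d : ℂ}
    (hc : ∀ v ∈ Yz (cc (mt b P)) z, cc (mt b a) *ᵥ v = c • v)
    (hd : ∀ v ∈ Yz (cc (mt b P)) w, cc (mt b a) *ᵥ v = d • v) : c = d := by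
  obtain ⟨T, hT, hne⟩ := hl
  have hcm : ∀ Q, Cm (HH b) Q → cc (mt b a) * Q = Q * cc (mt b a) := by
    intro Q hQ
    refine lm_ext fun l => ?_
    have h1 := ha _ (comp_mem hQ l)
    have h2 := congrArg (mt b) h1
    rw [map_mul, map_mul, AlgEquiv.apply_symm_apply] at h2
    rw [lm_cc_mul, lm_mul_cc, h2]
  have h1 : ∃ v, (ez (cc (mt b P)) (rts P) w * T * ez (cc (mt b P)) (rts P) z) *ᵥ v ≠ 0 := by
    by_contra hcon
    push Not at hcon
    apply hne
    apply (toLin').injective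
    refine LinearMap.ext fun v => ?_
    rw [toLin'_apply, hcon, map_zero, LinearMap.zero_apply]
  obtain ⟨v, hv⟩ := h1
  set E := ez (cc (mt b P)) (rts P) w * T * ez (cc (mt b P)) (rts P) z with hE
  have h2 : cc (mt b a) *ᵥ (E *ᵥ v) = d • (E *ᵥ v) := by
    refine hd _ ?_
    rw [hE, mul_assoc, ← mulVec_mulVec]
    exact hS.e_mem hw _
  have h3 : cc (mt b a) *ᵥ (E *ᵥ v) = c • (E *ᵥ v) := by
    have h4 : E *ᵥ v = (ez (cc (mt b P)) (rts P) w * T) *ᵥ
        (ez (cc (mt b P)) (rts P) z *ᵥ v) := by rw [hE, mulVec_mulVec]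
    rw [h4, mulVec_mulVec, hcm _ ((hS.e_cm w).mul hT), ← mulVec_mulVec, hc _ (hS.e_mem hz v),
      mulVec_smul]
  have h4 : c • (E *ᵥ v) = d • (E *ᵥ v) := h3.symm.trans h2
  exact smul_left_injective ℂ hv h4

/-- If `P` is quadratic over the centre then at most two eigenvalues are linked. -/
theorem two_of_quad {P : Module.End ℚ A.H1}
    (hS : Spec (cc (Om b)) (HH b) (cc (mt b P)) (rts P)) (hPE : P ∈ A.EA)
    {a e : Module.End ℚ A.H1} (ha : ∀ Q ∈ A.EA, a * Q = Q * a) (he : ∀ Q ∈ A.EA, e * Q = Q * e)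
    (haE : a ∈ A.EA) (heE : e ∈ A.EA) (hq : P * P = a * P + e) :
    ∀ z ∈ rts P, ∀ w ∈ rts P, ∀ u ∈ rts P, Link (HH b) (cc (mt b P)) (rts P) z w →
      Link (HH b) (cc (mt b P)) (rts P) w u → z = w ∨ w = u ∨ z = u := by
  have hval : ∀ z ∈ rts P, ∃ c d : ℂ, (∀ v ∈ Yz (cc (mt b P)) z, cc (mt b a) *ᵥ v = c • v) ∧
      (∀ v ∈ Yz (cc (mt b P)) z, cc (mt b e) *ᵥ v = d • v) ∧ z * z = c * z + d := by
    intro z hz
    obtain ⟨c, hc⟩ := hS.scal (cc (mt b a)) (cm_cc haE) (by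
      rw [← cc_mul, ← cc_mul, ← map_mul, ← map_mul, ha P hPE]) z hz
    obtain ⟨d, hd⟩ := hS.scal (cc (mt b e)) (cm_cc heE) (by
      rw [← cc_mul, ← cc_mul, ← map_mul, ← map_mul, he P hPE]) z hz
    refine ⟨c, d, hc, hd, ?_⟩
    obtain ⟨v, hv, hv0⟩ := (Yz (cc (mt b P)) z).ne_bot_iff.mp (hS.ne z hz)
    have h1 := congrArg (fun X => cc (mt b X) *ᵥ v) hq
    simp only [map_mul, map_add, cc_mul, cc_add, add_mulVec, ← mulVec_mulVec] at h1
    rw [mem_Yz.1 hv, mulVec_smul, mulVec_smul, mem_Yz.1 hv, hc v hv, hd v hv, smul_smul,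
      smul_smul, ← add_smul] at h1
    have h2 := smul_left_injective ℂ hv0 h1
    rw [h2]; ring
  intro z hz w hw u hu h1 h2
  obtain ⟨c, d, hc, hd, e1⟩ := hval z hz
  obtain ⟨c', d', hc', hd', e2⟩ := hval w hw
  obtain ⟨c'', d'', hc'', hd'', e3⟩ := hval u hu
  have f1 := link_central hS (ha P hPE) ha haE hz hw h1 hc hc'
  have f2 := link_central hS (he P hPE) he heE hz hw h1 hd hd'
  have f3 := link_central hS (ha P hPE) ha haE hw hu h2 hc' hc''
  have f4 := link_central hS (he P hPE) he heE hw hu h2 hd' hd''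
  subst f1 f2 f3 f4
  by_contra hcon
  push Not at hcon
  obtain ⟨n1, n2, n3⟩ := hcon
  have g1 : (z - w) * (z + w - c) = 0 := by linear_combination e1 - e2
  have g2 : (w - u) * (w + u - c) = 0 := by linear_combination e2 - e3
  have g3 := (mul_eq_zero.mp g1).resolve_left (sub_ne_zero.mpr n1)
  have g4 := (mul_eq_zero.mp g2).resolve_left (sub_ne_zero.mpr n2)
  apply n3
  linear_combination g3 - g4

/-- **The case of eigenspaces of dimension four.** -/
theorem main4 {P : Module.End ℚ A.H1} (hP : P ∈ ES A)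
    (hc : ∀ Q ∈ A.EA, Q * P = P * Q → ∃ f : ℚ[X], Q = aeval P f)
    (h4 : ∀ z : ℂ, (P.charpoly.map (algebraMap ℚ ℂ)).IsRoot z →
      (P.charpoly.map (algebraMap ℚ ℂ)).rootMultiplicity z = 4)
    {a e : Module.End ℚ A.H1} (ha : ∀ Q ∈ A.EA, a * Q = Q * a) (he : ∀ Q ∈ A.EA, e * Q = Q * e)
    (haE : a ∈ A.EA) (heE : e ∈ A.EA) (hq : P * P = a * P + e) (k : ℕ) : WA A k ≤ QS A k := by
  let b : Basis (Fin (2 * g)) ℚ A.H1 := Pi.basisFun ℚ (Fin (2 * g))
  refine main_of_vanish b (fun k φ hφ => ?_) k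
  haveI : Nonempty (Fin (k + 1) × Fin 2) := ⟨(0, 0)⟩
  rcases isEmpty_or_nonempty (Fin (2 * g)) with hem | hne
  · ext v
    rw [AlternatingMap.zero_apply]
    exact φ.map_coord_zero (0, 0) (Subsingleton.elim _ _)
  · have hS := spec_of (b := b) hP hc
    refine vanish_spec (sysw b) hS (fun z hz => ?_) (two_of_quad hS hP.1 ha he haE heE hq) hφ
    rw [dim_Yz hP]
    refine h4 z ?_
    obtain ⟨r, hr⟩ := LinearMap.minpoly_dvd_charpoly P
    rw [hr, Polynomial.map_mul]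
    exact root_mul_right_of_isRoot _ (mem_rts.1 hz)

end

end Pool.Agent.V5helper88.KK
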